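import Mathlib

/-! MP_59b56e_nt (answer NO, n = 5, p = x(x^2-4)(x^2-9)). If p - t has 5 distinct rational roots then its
discriminant 3125 t^4 - 2612844 t^2 + 466560000 is a square; a 2-isogeny descent shows t = 0 or t = ±72/5.
Write `theorem main (h : TaskDep) ... : Pool.Agent.Q18.HQ.TaskXxx` in Pool/Agent/Q18/HQ/TaskXxx.lean,
namespace Pool.Agent.Q18.HQ.TaskXxx. -/

set_option autoImplicit false

namespace Pool.Agent.Q18.HQ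

/-- point on y^2 = x (x^2 + a x + b) -/
def E (a b : ℤ) (x y : ℚ) : Prop := y ^ 2 = x * (x ^ 2 + a * x + b)

/-- x = U/V in lowest terms, (y V^2)^2 = U (U^2 + a U V + b V^2) V, V coprime to the rest, so V is a square
(Int.sq_of_coprime). -/
def TaskDen : Prop := ∀ (a b : ℤ) (x y : ℚ), E a b x y →
  ∃ u e w : ℤ, 0 < e ∧ IsCoprime u e ∧ x = u / (e : ℚ) ^ 2 ∧
    u * (u ^ 2 + a * u * e ^ 2 + b * e ^ 4) = w ^ 2

/-- u = d M^2 with d squarefree; a prime l | d divides the second factor (odd valuation), so l | b e^4, so l | b -/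
def TaskCls : Prop := ∀ (a b u e w : ℤ), b ≠ 0 → u ≠ 0 → IsCoprime u e →
  u * (u ^ 2 + a * u * e ^ 2 + b * e ^ 4) = w ^ 2 →
  ∃ d b2 M N : ℤ, Squarefree d ∧ d * b2 = b ∧ u = d * M ^ 2 ∧
    N ^ 2 = d * M ^ 4 + a * M ^ 2 * e ^ 2 + b2 * e ^ 4

/-- local obstruction -/
def Obs (a d b2 : ℤ) : Prop := ∀ M e N : ℤ, IsCoprime M e →
  N ^ 2 ≠ d * M ^ 4 + a * M ^ 2 * e ^ 2 + b2 * e ^ 4

/-- modulo 64 (M, e not both even) -/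
def TaskO1a : Prop := Obs (-72579) 2 562500000 ∧ Obs (-72579) 10 112500000

/-- modulo 9 (M, e not both divisible by 3): first 3 | N, divide by 3 -/
def TaskO1b : Prop := Obs (-72579) 3 375000000 ∧ Obs (-72579) 15 75000000 ∧
  Obs (-72579) 6 187500000 ∧ Obs (-72579) 30 37500000

/-- the right side is negative -/
def TaskO1c : Prop := ∀ d b2 : ℤ, d < 0 → b2 < 0 → Obs (-72579) d b2

/-- modulo 16 -/
def TaskO2a : Prop := Obs 145158 11 69791931 ∧ Obs 145158 979 784179 ∧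
  Obs 145158 (-1) (-767711241) ∧ Obs 145158 (-89) (-8625969)

/-- modulo 9 -/
def TaskO2b : Prop := Obs 145158 3 255903747 ∧ Obs 145158 267 2875323 ∧
  Obs 145158 33 23263977 ∧ Obs 145158 2937 261393

/-- modulo 9 -/
def TaskO2d : Prop := Obs 145158 (-3) (-255903747) ∧ Obs 145158 (-267) (-2875323) ∧
  Obs 145158 (-33) (-23263977) ∧ Obs 145158 (-2937) (-261393)

/-- modulo 11: 2 is no square, so 11 | N and 11 | M e; then modulo 121 -/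
def TaskO2c : Prop := Obs 145158 (-11) (-69791931) ∧ Obs 145158 (-979) (-784179)

/-- squarefree divisors of 1125000000 = 2^6 3^2 5^9 divide 30 -/
def TaskD1 : Prop := ∀ d b2 : ℤ, Squarefree d → d * b2 = 1125000000 →
  d ∣ 30 ∧ (d = 1 ∨ d = 2 ∨ d = 3 ∨ d = 5 ∨ d = 6 ∨ d = 10 ∨ d = 15 ∨ d = 30 ∨ (d < 0 ∧ b2 < 0))

/-- squarefree divisors of 767711241 = 33^2 89^3 divide 2937 -/
def TaskD2 : Prop := ∀ d b2 : ℤ, Squarefree d → d * b2 = 767711241 →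
  d = 1 ∨ d = 3 ∨ d = 11 ∨ d = 33 ∨ d = 89 ∨ d = 267 ∨ d = 979 ∨ d = 2937 ∨
  d = -1 ∨ d = -3 ∨ d = -11 ∨ d = -33 ∨ d = -89 ∨ d = -267 ∨ d = -979 ∨ d = -2937

/-- assembly: TaskDen, TaskCls, TaskD1, TaskO1a, TaskO1b, TaskO1c (IsCoprime M e from IsCoprime u e, u = d M^2) -/
def TaskSel1 : Prop := ∀ x y : ℚ, x ≠ 0 → E (-72579) 1125000000 x y →
  (∃ r : ℚ, x = r ^ 2) ∨ ∃ r : ℚ, x = 5 * r ^ 2

/-- assembly: TaskDen, TaskCls, TaskD2, TaskO2a, TaskO2b, TaskO2c, TaskO2d -/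
def TaskSel2 : Prop := ∀ x y : ℚ, x ≠ 0 → E 145158 767711241 x y →
  (∃ r : ℚ, x = r ^ 2) ∨ ∃ r : ℚ, x = 89 * r ^ 2

/-- from TaskSel2: x = 2 r^2 - 72579 - 2 y and x' = 2 r^2 - 72579 + 2 y have x x' = 767711241 and
x + x' + 145158 = 4 r^2; (2 r x)^2 = x (x^2 + 145158 x + 767711241). If x = 89 s^2 then x' = (2937/s)^2 -/
def TaskStep1 : Prop := ∀ r y : ℚ, y ^ 2 = r ^ 4 - 72579 * r ^ 2 + 1125000000 →
  ∃ q : ℚ, q ≠ 0 ∧ 4 * r ^ 2 * q ^ 2 = q ^ 4 + 145158 * q ^ 2 + 767711241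

/-- from TaskSel1: x = (q^2 + 72579 + 2 r q) / 2, x' = (q^2 + 72579 - 2 r q) / 2 have x x' = 1125000000,
x + x' - 72579 = q^2; (q x)^2 = x (x^2 - 72579 x + 1125000000). If x = 5 s^2 then x' = (15000/s)^2 -/
def TaskStep2 : Prop := ∀ r q : ℚ, q ≠ 0 → 4 * r ^ 2 * q ^ 2 = q ^ 4 + 145158 * q ^ 2 + 767711241 →
  ∃ s : ℚ, s ≠ 0 ∧ q ^ 2 * s ^ 2 = s ^ 4 - 72579 * s ^ 2 + 1125000000

/-- q = M/e, r = m/k: 4 m^2 M^2 e^2 = k^2 (M^4 + ...e^2), so e^2 | k^2 -/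
def TaskDen1 : Prop := ∀ r q : ℚ, q ≠ 0 → 4 * r ^ 2 * q ^ 2 = q ^ 4 + 145158 * q ^ 2 + 767711241 →
  q.den ∣ r.den

def TaskDen2 : Prop := ∀ q s : ℚ, s ≠ 0 → q ^ 2 * s ^ 2 = s ^ 4 - 72579 * s ^ 2 + 1125000000 →
  s.den ∣ q.den

/-- finite check: M | 2937, m | 15000, and k <= 121 (7.3e4 m^2 k^2 + M^2 m^2 >= 1125000000 k^4) -/
def TaskFin : Prop := ∀ M m k : ℕ, 0 < k → M ^ 2 ∣ 767711241 → m ^ 2 ∣ 1125000000 → Nat.Coprime m k →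
  M ^ 2 * m ^ 2 + 72579 * m ^ 2 * k ^ 2 = m ^ 4 + 1125000000 * k ^ 4 → m = 250 ∧ k = 1

/-- from TaskFin: with q = M/k, r = n/k, s = m/k: 4 n^2 M^2 = M^4 + 145158 M^2 k^2 + 767711241 k^4 gives
M^2 | 767711241; M^2 m^2 = m^4 - 72579 m^2 k^2 + 1125000000 k^4 gives m^2 | 1125000000 -/
def TaskEq : Prop := ∀ r q s : ℚ, q ≠ 0 → s ≠ 0 →
  4 * r ^ 2 * q ^ 2 = q ^ 4 + 145158 * q ^ 2 + 767711241 →
  q ^ 2 * s ^ 2 = s ^ 4 - 72579 * s ^ 2 + 1125000000 →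
  q.den = r.den → s.den = q.den → s ^ 2 = 62500

/-- q^2 = 7921 -/
def TaskBack : Prop := ∀ r q s : ℚ, 4 * r ^ 2 * q ^ 2 = q ^ 4 + 145158 * q ^ 2 + 767711241 →
  q ^ 2 * s ^ 2 = s ^ 4 - 72579 * s ^ 2 + 1125000000 → s ^ 2 = 62500 → r ^ 2 = 62500

/-- strong induction on r.den with TaskStep1, TaskStep2, TaskDen1, TaskDen2, TaskEq, TaskBack -/
def TaskDescent : Prop := ∀ r y : ℚ, y ^ 2 = r ^ 4 - 72579 * r ^ 2 + 1125000000 → r ^ 2 = 62500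

/-- from TaskDescent with r = 3600 / t, (600 y / t^2)^2 = r^4 - 72579 r^2 + 1125000000 -/
def TaskH : Prop := ∀ t y : ℚ, y ^ 2 = 3125 * t ^ 4 - 2612844 * t ^ 2 + 466560000 →
  t = 0 ∨ t ^ 2 = (72 / 5) ^ 2

/-- f - ∏ (X - s i) has degree <= 4 and 5 roots -/
def TaskRoots : Prop := ∀ (s : Fin 5 → ℚ) (t : ℚ), Function.Injective s →
  (∀ i, s i ^ 5 - 13 * s i ^ 3 + 36 * s i = t) →
  ∀ x : ℚ, x ^ 5 - 13 * x ^ 3 + 36 * x - t = ∏ i, (x - s i)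

/-- evaluate at x = 0, 1, -1, 2, -2 to get the elementary symmetric functions (0, -13, 0, 36, t) -/
def TaskNewton : Prop := ∀ (s : Fin 5 → ℚ) (t : ℚ),
  (∀ x : ℚ, x ^ 5 - 13 * x ^ 3 + 36 * x - t = ∏ i, (x - s i)) →
  ∑ i, s i = 0 ∧ ∑ i, s i ^ 2 = 26 ∧ ∑ i, s i ^ 3 = 0 ∧ ∑ i, s i ^ 4 = 194

/-- power sums p_5 = 5 t, p_6 = 1586, p_7 = 91 t, p_8 = 13634 by the recursion
p_{k+5} = 13 p_{k+3} - 36 p_{k+1} + t p_k -/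
def TaskPow : Prop := ∀ (s : Fin 5 → ℚ) (t : ℚ), (∀ i, s i ^ 5 - 13 * s i ^ 3 + 36 * s i = t) →
  ∑ i, s i = 0 → ∑ i, s i ^ 2 = 26 → ∑ i, s i ^ 3 = 0 → ∑ i, s i ^ 4 = 194 →
  ∑ i, s i ^ 5 = 5 * t ∧ ∑ i, s i ^ 6 = 1586 ∧ ∑ i, s i ^ 7 = 91 * t ∧ ∑ i, s i ^ 8 = 13634

/-- (det V)^2 = det (V^T V), V the Vandermonde matrix, V^T V the Hankel matrix of the power sums
(Matrix.vandermonde_transpose_mul_vandermonde) -/
def TaskHankel : Prop := ∀ (s : Fin 5 → ℚ) (t : ℚ),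
  ∑ i, s i = 0 → ∑ i, s i ^ 2 = 26 → ∑ i, s i ^ 3 = 0 → ∑ i, s i ^ 4 = 194 →
  ∑ i, s i ^ 5 = 5 * t → ∑ i, s i ^ 6 = 1586 → ∑ i, s i ^ 7 = 91 * t → ∑ i, s i ^ 8 = 13634 →
  ∃ y : ℚ, y ^ 2 = 3125 * t ^ 4 - 2612844 * t ^ 2 + 466560000

/-- x = u/w in lowest terms: 5 u^5 - 65 u^3 w^2 + 180 u w^4 = ± 72 w^5, so 5 | w, so 5 | u -/
def TaskNoRoot : Prop := ∀ x : ℚ, (x ^ 5 - 13 * x ^ 3 + 36 * x) ^ 2 ≠ (72 / 5) ^ 2

end Pool.Agent.Q18.HQ
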