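import Mathlib
import Pool.Agent.Q18.HQ.Stmts

set_option autoImplicit false

namespace Pool.Agent.Q18.HQ.F227

theorem obs_mod (n p : ℕ) [NeZero n] (hp : p.Prime) (hpn : p ∣ n) (a d b : ℤ)
    (h : ∀ x y z : ZMod n, (x.val % p ≠ 0 ∨ y.val % p ≠ 0) →
      z ^ 2 ≠ (d : ZMod n) * x ^ 4 + (a : ZMod n) * x ^ 2 * y ^ 2 + (b : ZMod n) * y ^ 4) : Obs a d b := by
  intro M e N hc hN
  refine h (M : ZMod n) (e : ZMod n) (N : ZMod n) ?_ ?_
  · by_contra hcon
    push Not at hcon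
    have key : ∀ K : ℤ, ((K : ZMod n).val % p = 0) → (p : ℤ) ∣ K := by
      intro K hK
      have h1 : ((K : ZMod n).val : ℤ) = K % n := ZMod.val_intCast K
      have h2 : (p : ℤ) ∣ ((K : ZMod n).val : ℤ) := by
        exact_mod_cast Nat.dvd_of_mod_eq_zero hK
      rw [h1] at h2
      have h3 : (p : ℤ) ∣ (n : ℤ) := by exact_mod_cast hpn
      exact (Int.dvd_iff_dvd_of_dvd_sub (by
        have : K - K % n = n * (K / n) := by
          have := Int.mul_ediv_add_emod K n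
          linarith
        rw [this]
        exact h3.mul_right _)).2 h2
    have hM := key M hcon.1
    have he := key e hcon.2
    have h4 : IsUnit (p : ℤ) := hc.isUnit_of_dvd' hM he
    rw [Int.isUnit_iff] at h4
    have := hp.two_le
    omega
  · have h5 : ((N ^ 2 : ℤ) : ZMod n) = ((d * M ^ 4 + a * M ^ 2 * e ^ 2 + b * e ^ 4 : ℤ) : ZMod n) := by
      rw [hN]
    push_cast at h5
    exact h5

theorem o1b : TaskO1b := by
  refine ⟨obs_mod 9 3 (by norm_num) (by norm_num) _ _ _ ?_, obs_mod 9 3 (by norm_num) (by norm_num) _ _ _ ?_,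
    obs_mod 9 3 (by norm_num) (by norm_num) _ _ _ ?_, obs_mod 9 3 (by norm_num) (by norm_num) _ _ _ ?_⟩ <;>
  decide +kernel

end Pool.Agent.Q18.HQ.F227

namespace Pool.Agent.Q18.HQ.F227

def P (x : ZMod 64) : Bool := x = 0 || x = 1 || x = 4 || x = 9 || x = 16 || x = 17 || x = 25 || x = 33 ||
  x = 36 || x = 41 || x = 49 || x = 57

theorem sq64 : ∀ z : ZMod 64, P (z ^ 2) = true := by decide +kernel

theorem tab1 : ∀ x y : ZMod 64, (x.val % 2 ≠ 0 ∨ y.val % 2 ≠ 0) →
    P (2 * x ^ 4 + 61 * x ^ 2 * y ^ 2 + 32 * y ^ 4) = false := by decide +kernel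

theorem tab2 : ∀ x y : ZMod 64, (x.val % 2 ≠ 0 ∨ y.val % 2 ≠ 0) →
    P (10 * x ^ 4 + 61 * x ^ 2 * y ^ 2 + 32 * y ^ 4) = false := by decide +kernel

theorem o1a : TaskO1a := by
  refine ⟨obs_mod 64 2 (by norm_num) (by norm_num) _ _ _ ?_,
    obs_mod 64 2 (by norm_num) (by norm_num) _ _ _ ?_⟩
  · intro x y z hxy hz
    have h1 := tab1 x y hxy
    have h2 := sq64 z
    have e1 : (((2 : ℤ)) : ZMod 64) = 2 := by decide
    have e2 : (((-72579 : ℤ)) : ZMod 64) = 61 := by decide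
    have e3 : (((562500000 : ℤ)) : ZMod 64) = 32 := by decide
    rw [hz, e1, e2, e3, h1] at h2
    exact Bool.false_ne_true h2
  · intro x y z hxy hz
    have h1 := tab2 x y hxy
    have h2 := sq64 z
    have e1 : (((10 : ℤ)) : ZMod 64) = 10 := by decide
    have e2 : (((-72579 : ℤ)) : ZMod 64) = 61 := by decide
    have e3 : (((112500000 : ℤ)) : ZMod 64) = 32 := by decide
    rw [hz, e1, e2, e3, h1] at h2
    exact Bool.false_ne_true h2

end Pool.Agent.Q18.HQ.F227
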