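import Pool.Agent.Q18.HQ.Stmts

set_option autoImplicit false

namespace Pool.Agent.Q18.HQ.FB19a

/-- the squares modulo 64 -/
def S : List (ZMod 64) := [0, 1, 4, 9, 16, 17, 25, 33, 36, 41, 49, 57]

theorem mem_S : ∀ N : ZMod 64, N * N ∈ S := by decide +kernel

theorem chk2 : ∀ u ∈ S, ∀ w ∈ S, (2 : ZMod 64) * (u * u) + 61 * (u * w) + 32 * (w * w) ∈ S →
    u.val % 2 = 0 ∧ w.val % 2 = 0 := by decide +kernel

theorem chk10 : ∀ u ∈ S, ∀ w ∈ S, (10 : ZMod 64) * (u * u) + 61 * (u * w) + 32 * (w * w) ∈ S →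
    u.val % 2 = 0 ∧ w.val % 2 = 0 := by decide +kernel

theorem even_of (M : ℤ) (h : ((M : ZMod 64) * (M : ZMod 64)).val % 2 = 0) : (2 : ℤ) ∣ M := by
  have h1 : (((M : ZMod 64) * (M : ZMod 64)).val : ℤ) = (M * M) % 64 := by
    rw [← Int.cast_mul, ZMod.val_intCast]
    rfl
  have h2 : (2 : ℤ) ∣ M * M := by omega
  rcases Int.prime_two.dvd_or_dvd h2 with h3 | h3 <;> exact h3

theorem obs (d b : ℤ) (hd : ∀ u ∈ S, ∀ w ∈ S, (d : ZMod 64) * (u * u) + 61 * (u * w) +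
    (b : ZMod 64) * (w * w) ∈ S → u.val % 2 = 0 ∧ w.val % 2 = 0) : Obs (-72579) d b := by
  intro M e N hc heq
  have h1 := congrArg (Int.cast : ℤ → ZMod 64) heq
  have hA : ((-72579 : ℤ) : ZMod 64) = 61 := by decide +kernel
  have h2 : (N : ZMod 64) * N = (d : ZMod 64) * (((M : ZMod 64) * M) * ((M : ZMod 64) * M)) +
      61 * (((M : ZMod 64) * M) * ((e : ZMod 64) * e)) +
      (b : ZMod 64) * (((e : ZMod 64) * e) * ((e : ZMod 64) * e)) := by
    rw [← hA]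
    push_cast at h1 ⊢
    linear_combination h1
  have h3 := hd _ (mem_S M) _ (mem_S e) (by rw [← h2]; exact mem_S N)
  have h4 := hc.isUnit_of_dvd' (even_of M h3.1) (even_of e h3.2)
  rw [Int.isUnit_iff] at h4
  omega

theorem main : Pool.Agent.Q18.HQ.TaskO1a := by
  refine ⟨obs _ _ ?_, obs _ _ ?_⟩
  · have hD : ((2 : ℤ) : ZMod 64) = 2 := by decide +kernel
    have hB : ((562500000 : ℤ) : ZMod 64) = 32 := by decide +kernel
    rw [hD, hB]
    exact chk2
  · have hD : ((10 : ℤ) : ZMod 64) = 10 := by decide +kernel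
    have hB : ((112500000 : ℤ) : ZMod 64) = 32 := by decide +kernel
    rw [hD, hB]
    exact chk10

end Pool.Agent.Q18.HQ.FB19a
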