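import Mathlib
import Pool.Agent.Q18.HQ.Stmts

set_option autoImplicit false

namespace Pool.Agent.Q18.HQ.Final

open Pool.Agent.Q18.HQ Polynomial

/-- no shift works -/
theorem noShift (hH : TaskH) (hRoots : TaskRoots) (hNewton : TaskNewton) (hPow : TaskPow)
    (hHankel : TaskHankel) (hNo : TaskNoRoot) (s : Fin 5 → ℚ) (t : ℚ) (hinj : Function.Injective s)
    (hs : ∀ i, s i ^ 5 - 13 * s i ^ 3 + 36 * s i = t) : t = 0 := by
  obtain ⟨h1, h2, h3, h4⟩ := hNewton s t (hRoots s t hinj hs)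
  obtain ⟨h5, h6, h7, h8⟩ := hPow s t hs h1 h2 h3 h4
  obtain ⟨y, hy⟩ := hHankel s t h1 h2 h3 h4 h5 h6 h7 h8
  rcases hH t y hy with h | h
  · exact h
  · exact absurd (by rw [hs 0]; exact h) (hNo (s 0))

theorem main (hH : TaskH) (hRoots : TaskRoots) (hNewton : TaskNewton) (hPow : TaskPow)
    (hHankel : TaskHankel) (hNo : TaskNoRoot) :
    ¬ (∀ p : Polynomial ℝ, 0 < p.natDegree →
      (∃ s : Finset ℚ, s.card = p.natDegree ∧ ∀ q ∈ s, p.eval (q : ℝ) = 0) →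
      ∃ t : ℝ, t ≠ 0 ∧
        ∃ s : Finset ℚ, s.card = p.natDegree ∧
          ∀ q ∈ s, (p - Polynomial.C t).eval (q : ℝ) = 0) := by
  intro hall
  have hdeg : (X ^ 5 - C 13 * X ^ 3 + C 36 * X : ℝ[X]).natDegree = 5 := by
    compute_degree!
  have hev : ∀ q : ℚ, (X ^ 5 - C 13 * X ^ 3 + C 36 * X : ℝ[X]).eval (q : ℝ)
      = ((q ^ 5 - 13 * q ^ 3 + 36 * q : ℚ) : ℝ) := by
    intro q
    simp only [eval_add, eval_sub, eval_mul, eval_pow, eval_X, eval_C]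
    push_cast
    ring
  obtain ⟨t, ht, s, hcard, hroot⟩ := hall (X ^ 5 - C 13 * X ^ 3 + C 36 * X) (by rw [hdeg]; norm_num)
    ⟨{0, 2, -2, 3, -3}, by rw [hdeg]; rfl, by
      intro q hq
      rw [hev]
      simp only [Finset.mem_insert, Finset.mem_singleton] at hq
      rcases hq with rfl | rfl | rfl | rfl | rfl <;> norm_num⟩
  rw [hdeg] at hcard
  have hroot' : ∀ q ∈ s, ((q ^ 5 - 13 * q ^ 3 + 36 * q : ℚ) : ℝ) = t := by
    intro q hq
    have h := hroot q hq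
    rw [eval_sub, hev, eval_C] at h
    linarith
  let f : Fin 5 ≃ s := (Finset.equivFinOfCardEq hcard).symm
  let g : Fin 5 → ℚ := fun i => (f i : ℚ)
  have hginj : Function.Injective g := fun i j h => f.injective (Subtype.ext h)
  have hg : ∀ i, ((g i ^ 5 - 13 * g i ^ 3 + 36 * g i : ℚ) : ℝ) = t := fun i => hroot' _ (f i).2
  have hg' : ∀ i, g i ^ 5 - 13 * g i ^ 3 + 36 * g i = g 0 ^ 5 - 13 * g 0 ^ 3 + 36 * g 0 := by
    intro i
    have : ((g i ^ 5 - 13 * g i ^ 3 + 36 * g i : ℚ) : ℝ)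
        = ((g 0 ^ 5 - 13 * g 0 ^ 3 + 36 * g 0 : ℚ) : ℝ) := by rw [hg i, hg 0]
    exact_mod_cast this
  have h0 := noShift hH hRoots hNewton hPow hHankel hNo g _ hginj hg'
  apply ht
  rw [← hg 0, h0]
  norm_num

end Pool.Agent.Q18.HQ.Final
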