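import Pool.Agent.Q18.HQ.Stmts

set_option autoImplicit false

namespace Pool.Agent.Q18.HQ.O1aFB

private theorem sq64 (x : ℤ) : x ^ 2 % 64 ∈ [(0 : ℤ), 1, 4, 9, 16, 17, 25, 33, 36, 41, 49, 57] := by
  have h : ∀ y : ZMod 64, (y ^ 2).val ∈ [0, 1, 4, 9, 16, 17, 25, 33, 36, 41, 49, 57] := by decide +kernel
  have h1 := h (x : ZMod 64)
  have h2 : ((x : ZMod 64) ^ 2).val = (x ^ 2 % 64).toNat := by
    have h3 : ((x : ZMod 64) ^ 2) = ((x ^ 2 : ℤ) : ZMod 64) := by push_cast; rfl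
    rw [h3]
    have h4 := ZMod.val_intCast (n := 64) (x ^ 2)
    have h5 : (((x ^ 2 : ℤ) : ZMod 64).val : ℤ) = x ^ 2 % 64 := by simpa using h4
    omega
  rw [h2] at h1
  have h6 : 0 ≤ x ^ 2 % 64 := Int.emod_nonneg _ (by norm_num)
  simp only [List.mem_cons, List.not_mem_nil, or_false] at h1 ⊢
  omega

private theorem chk : ∀ A ∈ [(0 : ℤ), 1, 4, 9, 16, 17, 25, 33, 36, 41, 49, 57],
    ∀ B ∈ [(0 : ℤ), 1, 4, 9, 16, 17, 25, 33, 36, 41, 49, 57],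
    ∀ C ∈ [(0 : ℤ), 1, 4, 9, 16, 17, 25, 33, 36, 41, 49, 57],
    (C % 64 = (2 * (A * A) + (-72579) * (A * B) + 562500000 * (B * B)) % 64 → A % 2 = 0 ∧ B % 2 = 0) ∧
    (C % 64 = (10 * (A * A) + (-72579) * (A * B) + 112500000 * (B * B)) % 64 → A % 2 = 0 ∧ B % 2 = 0) := by
  decide +kernel

private theorem even_of (x : ℤ) (h : (x ^ 2 % 64) % 2 = 0) : (2 : ℤ) ∣ x := by
  have h1 : (2 : ℤ) ∣ x ^ 2 := by omega
  exact Int.prime_two.dvd_of_dvd_pow h1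

theorem main : Pool.Agent.Q18.HQ.TaskO1a := by
  constructor
  · intro M e N hco h
    have hC := chk _ (sq64 M) _ (sq64 e) _ (sq64 N)
    have h1 : (N ^ 2 % 64) % 64 = (2 * ((M ^ 2 % 64) * (M ^ 2 % 64)) +
        (-72579) * ((M ^ 2 % 64) * (e ^ 2 % 64)) + 562500000 * ((e ^ 2 % 64) * (e ^ 2 % 64))) % 64 := by
      have h2 : N ^ 2 = 2 * (M ^ 2 * M ^ 2) + (-72579) * (M ^ 2 * e ^ 2) +
          562500000 * (e ^ 2 * e ^ 2) := by rw [h]; ring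
      rw [h2]
      simp only [Int.emod_emod_of_dvd, dvd_refl, Int.add_emod, Int.mul_emod]
    obtain ⟨h3, h4⟩ := hC.1 h1
    have := hco.isUnit_of_dvd' (even_of M h3) (even_of e h4)
    exact absurd this (by decide)
  · intro M e N hco h
    have hC := chk _ (sq64 M) _ (sq64 e) _ (sq64 N)
    have h1 : (N ^ 2 % 64) % 64 = (10 * ((M ^ 2 % 64) * (M ^ 2 % 64)) +
        (-72579) * ((M ^ 2 % 64) * (e ^ 2 % 64)) + 112500000 * ((e ^ 2 % 64) * (e ^ 2 % 64))) % 64 := by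
      have h2 : N ^ 2 = 10 * (M ^ 2 * M ^ 2) + (-72579) * (M ^ 2 * e ^ 2) +
          112500000 * (e ^ 2 * e ^ 2) := by rw [h]; ring
      rw [h2]
      simp only [Int.emod_emod_of_dvd, dvd_refl, Int.add_emod, Int.mul_emod]
    obtain ⟨h3, h4⟩ := hC.2 h1
    have := hco.isUnit_of_dvd' (even_of M h3) (even_of e h4)
    exact absurd this (by decide)

end Pool.Agent.Q18.HQ.O1aFB
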