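import Pool.Agent.Q18.HQ.Stmts

set_option autoImplicit false

namespace Pool.Agent.Q18.HQ.TaskBack

open Pool.Agent.Q18.HQ

theorem main : Pool.Agent.Q18.HQ.TaskBack := by
  intro r q s h1 h2 h3
  have h4 : s ^ 4 = 62500 ^ 2 := by
    have : s ^ 4 = (s ^ 2) ^ 2 := by ring
    rw [this, h3]
  rw [h3, h4] at h2
  have hq : q ^ 2 = 7921 := by linarith
  have hq4 : q ^ 4 = 7921 ^ 2 := by
    have : q ^ 4 = (q ^ 2) ^ 2 := by ring
    rw [this, hq]
  rw [hq, hq4] at h1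
  linarith

end Pool.Agent.Q18.HQ.TaskBack
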