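import Pool.Agent.Q18.HQ.Stmts

set_option autoImplicit false

namespace Pool.Agent.Q18.HQ.TaskCls
open Pool.Agent.Q18.HQ

theorem sqfree_part (u : ℤ) (hu : u ≠ 0) : ∃ d M : ℤ, Squarefree d ∧ u = d * M ^ 2 := by
  obtain ⟨a, b, hab, ha⟩ := Nat.sq_mul_squarefree u.natAbs
  rcases le_or_gt 0 u with h | h
  · refine ⟨(a : ℤ), (b : ℤ), ?_, ?_⟩
    · rwa [Int.squarefree_natCast]
    · have : ((u.natAbs : ℕ) : ℤ) = u := Int.natAbs_of_nonneg h
      rw [← this, ← hab]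
      push_cast
      ring
  · refine ⟨-(a : ℤ), (b : ℤ), ?_, ?_⟩
    · have h1 : Squarefree (a : ℤ) := by rwa [Int.squarefree_natCast]
      intro x hx
      exact h1 x ((dvd_neg).1 hx)
    · have h2 : ((u.natAbs : ℕ) : ℤ) = -u := Int.ofNat_natAbs_of_nonpos h.le
      have h3 : (u : ℤ) = -((u.natAbs : ℕ) : ℤ) := by rw [h2]; ring
      rw [h3, ← hab]
      push_cast
      ring

theorem main : Pool.Agent.Q18.HQ.TaskCls := by
  intro a b u e w hb hu hcop h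
  obtain ⟨d, M, hd, huM⟩ := sqfree_part u hu
  have hM : M ≠ 0 := by
    rintro rfl
    apply hu
    rw [huM]; ring
  have hd0 : d ≠ 0 := by
    rintro rfl
    apply hu
    rw [huM]; ring
  have h1 : M ^ 2 ∣ w ^ 2 := ⟨d * (u ^ 2 + a * u * e ^ 2 + b * e ^ 4), by
    rw [← h]
    nth_rewrite 1 [huM]
    ring⟩
  have h2 : M ∣ w := (Int.pow_dvd_pow_iff (by norm_num)).1 h1
  obtain ⟨w1, rfl⟩ := h2
  have h3 : d * (u ^ 2 + a * u * e ^ 2 + b * e ^ 4) = w1 ^ 2 := by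
    have hM2 : M ^ 2 ≠ 0 := pow_ne_zero _ hM
    apply mul_left_cancel₀ hM2
    have : M ^ 2 * (d * (u ^ 2 + a * u * e ^ 2 + b * e ^ 4)) =
        (d * M ^ 2) * (u ^ 2 + a * u * e ^ 2 + b * e ^ 4) := by ring
    rw [this, ← huM, h]
    ring
  have h4 : d ∣ w1 := by
    have : d ∣ w1 ^ 2 := ⟨_, h3.symm⟩
    exact (hd.dvd_pow_iff_dvd (by norm_num)).1 this
  obtain ⟨N, rfl⟩ := h4
  have h5 : u ^ 2 + a * u * e ^ 2 + b * e ^ 4 = d * N ^ 2 := by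
    apply mul_left_cancel₀ hd0
    rw [h3]; ring
  have h6 : d ∣ b * e ^ 4 := by
    refine ⟨N ^ 2 - M ^ 2 * u - a * M ^ 2 * e ^ 2, ?_⟩
    have : b * e ^ 4 = d * N ^ 2 - u * u - a * u * e ^ 2 := by linarith [h5, sq u]
    rw [this]
    nth_rewrite 1 [huM]
    nth_rewrite 2 [huM]
    ring
  have h7 : IsCoprime d (e ^ 4) := by
    apply IsCoprime.pow_right
    exact IsCoprime.of_isCoprime_of_dvd_left hcop ⟨M ^ 2, huM⟩
  obtain ⟨b2, hb2⟩ := h7.dvd_of_dvd_mul_right h6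
  refine ⟨d, b2, M, N, hd, hb2.symm, huM, ?_⟩
  apply mul_left_cancel₀ hd0
  rw [← h5, huM, hb2]
  ring

end Pool.Agent.Q18.HQ.TaskCls
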