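import Pool.Agent.Q18.HQ.Stmts

set_option autoImplicit false

namespace Pool.Agent.Q18.HQ.TaskD1

open Pool.Agent.Q18.HQ

theorem main : Pool.Agent.Q18.HQ.TaskD1 := by
  intro d b2 hsq h
  have h1 : d ∣ (30 : ℤ) ^ 9 :=
    Dvd.dvd.trans (Dvd.intro b2 h) ⟨17496, by norm_num⟩
  have h30 : d ∣ 30 := (hsq.dvd_pow_iff_dvd (by norm_num)).mp h1
  refine ⟨h30, ?_⟩
  rcases lt_trichotomy d 0 with hd | hd | hd
  · have hb : b2 < 0 := by
      by_contra hb
      push Not at hb
      nlinarith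
    simp [hd, hb]
  · subst hd
    norm_num at h
  · have hle : d ≤ 30 := Int.le_of_dvd (by norm_num) h30
    clear h h1 hsq
    interval_cases d <;> omega

end Pool.Agent.Q18.HQ.TaskD1
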