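import Mathlib
import Pool.Agent.Q18.HQ.Stmts

set_option autoImplicit false

namespace Pool.Agent.Q18.HQ.TaskD2

theorem main : Pool.Agent.Q18.HQ.TaskD2 := by
  intro d b2 hd h
  have h0 : d ∣ 767711241 := ⟨b2, h.symm⟩
  have h1 : d ∣ (2937 : ℤ) ^ 3 := h0.trans ⟨33, by norm_num⟩
  have h2 : d ∣ 2937 := (hd.dvd_pow_iff_dvd (by norm_num : (3 : ℕ) ≠ 0)).mp h1
  have h3 : d.natAbs ∈ Nat.divisors 2937 := by
    rw [Nat.mem_divisors]
    have := Int.natAbs_dvd_natAbs.mpr h2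
    exact ⟨by simpa using this, by norm_num⟩
  have h4 : Nat.divisors 2937 = {1, 3, 11, 33, 89, 267, 979, 2937} := by decide +kernel
  rw [h4] at h3
  simp only [Finset.mem_insert, Finset.mem_singleton] at h3
  omega

end Pool.Agent.Q18.HQ.TaskD2
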