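import Pool.Agent.Q18.HQ.Stmts

set_option autoImplicit false

namespace Pool.Agent.Q18.HQ.TaskDen

theorem main : Pool.Agent.Q18.HQ.TaskDen := by
  intro a b x y h
  unfold E at h
  obtain ⟨U, hU⟩ : ∃ U : ℤ, U = x.num := ⟨_, rfl⟩
  obtain ⟨V, hV⟩ : ∃ V : ℤ, V = (x.den : ℤ) := ⟨_, rfl⟩
  have hVpos : 0 < V := by rw [hV]; exact_mod_cast x.den_pos
  have hVQ : (V : ℚ) ≠ 0 := by exact_mod_cast hVpos.ne'
  have hx : x = (U : ℚ) / (V : ℚ) := by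
    rw [hU, hV]; exact_mod_cast (Rat.num_div_den x).symm
  have hcop : IsCoprime U V := by
    rw [hU, hV, Int.isCoprime_iff_gcd_eq_one]
    simpa [Int.gcd] using x.reduced
  have hint : (y * (V : ℚ) ^ 2) ^ 2 =
      ((V * (U * (U ^ 2 + a * U * V + b * V ^ 2)) : ℤ) : ℚ) := by
    push_cast
    have h1 : (y * (V : ℚ) ^ 2) ^ 2 = y ^ 2 * (V : ℚ) ^ 4 := by ring
    rw [h1, h, hx]
    field_simp
  have hden : (y * (V : ℚ) ^ 2).den = 1 := by
    have h2 := congrArg Rat.den hint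
    rw [Rat.den_pow, Rat.den_intCast] at h2
    rcases Nat.pow_eq_one.1 h2 with h | h
    · exact h
    · omega
  obtain ⟨w0, hw0⟩ : ∃ w0 : ℤ, (w0 : ℚ) = y * (V : ℚ) ^ 2 :=
    ⟨_, (Rat.den_eq_one_iff _).1 hden⟩
  rw [← hw0] at hint
  have hZ : V * (U * (U ^ 2 + a * U * V + b * V ^ 2)) = w0 ^ 2 := by exact_mod_cast hint.symm
  have hc2 : IsCoprime (U ^ 2 + a * U * V + b * V ^ 2) V := by
    have h3 : IsCoprime (U ^ 2 + V * (a * U + b * V)) V := (hcop.pow_left).add_mul_left_left _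
    have h4 : U ^ 2 + V * (a * U + b * V) = U ^ 2 + a * U * V + b * V ^ 2 := by ring
    rwa [h4] at h3
  have hc : IsCoprime V (U * (U ^ 2 + a * U * V + b * V ^ 2)) := (hcop.mul_left hc2).symm
  obtain ⟨e0, he0⟩ := Int.sq_of_isCoprime hc hZ
  have he1 : V = e0 ^ 2 := by
    rcases he0 with h5 | h5
    · exact h5
    · exfalso
      nlinarith [sq_nonneg e0]
  have heV : V = |e0| ^ 2 := by rw [sq_abs]; exact he1
  have hepos : 0 < |e0| := by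
    rw [abs_pos]
    rintro rfl
    simp at he1
    omega
  obtain ⟨e, he⟩ : ∃ e : ℤ, e = |e0| := ⟨_, rfl⟩
  rw [← he] at heV hepos
  have hdvd : e ∣ w0 := by
    have h6 : e ^ 2 ∣ w0 ^ 2 := ⟨U * (U ^ 2 + a * U * V + b * V ^ 2), by rw [← hZ, ← heV]⟩
    exact (Int.pow_dvd_pow_iff two_ne_zero).1 h6
  obtain ⟨w, hw⟩ := hdvd
  refine ⟨U, e, w, hepos, ?_, ?_, ?_⟩
  · exact hcop.of_isCoprime_of_dvd_right ⟨e, by rw [heV]; ring⟩
  · rw [hx, heV]; push_cast; ring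
  · have h7 : e ^ 2 * (U * (U ^ 2 + a * U * e ^ 2 + b * e ^ 4)) = e ^ 2 * w ^ 2 := by
      have h8 : e ^ 2 * w ^ 2 = w0 ^ 2 := by rw [hw]; ring
      rw [h8, ← hZ, heV]; ring
    exact mul_left_cancel₀ (pow_ne_zero 2 hepos.ne') h7

end Pool.Agent.Q18.HQ.TaskDen
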