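import Pool.Agent.Q18.HQ.Stmts

/-! Proof of `TaskDen1` (MP_59b56e_nt), helper240. -/

namespace Pool.Agent.Q18.HQ.TaskDen1

open Pool.Agent.Q18.HQ

theorem main : Pool.Agent.Q18.HQ.TaskDen1 := by
  intro r q hq h
  have he : (q.den : ℚ) ≠ 0 := by exact_mod_cast q.den_nz
  have hk : (r.den : ℚ) ≠ 0 := by exact_mod_cast r.den_nz
  have hqe : q * q.den = q.num := Rat.mul_den_eq_num q
  have hre : r * r.den = r.num := Rat.mul_den_eq_num r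
  have h1 : (4 : ℚ) * (r.num : ℚ) ^ 2 * (q.num : ℚ) ^ 2 * (q.den : ℚ) ^ 2 =
      (r.den : ℚ) ^ 2 * ((q.num : ℚ) ^ 4 + 145158 * (q.num : ℚ) ^ 2 * (q.den : ℚ) ^ 2 +
        767711241 * (q.den : ℚ) ^ 4) := by
    rw [← hqe, ← hre]
    linear_combination ((r.den : ℚ) ^ 2 * (q.den : ℚ) ^ 4) * h
  have h2 : (4 : ℤ) * r.num ^ 2 * q.num ^ 2 * (q.den : ℤ) ^ 2 =
      (r.den : ℤ) ^ 2 * (q.num ^ 4 + 145158 * q.num ^ 2 * (q.den : ℤ) ^ 2 +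
        767711241 * (q.den : ℤ) ^ 4) := by
    exact_mod_cast h1
  have h3 : (q.den : ℤ) ^ 2 ∣ (r.den : ℤ) ^ 2 * q.num ^ 4 :=
    ⟨4 * r.num ^ 2 * q.num ^ 2 - (r.den : ℤ) ^ 2 * (145158 * q.num ^ 2 +
      767711241 * (q.den : ℤ) ^ 2), by linear_combination -h2⟩
  have h4 : IsCoprime (q.den : ℤ) q.num := by
    rw [Int.isCoprime_iff_gcd_eq_one, Int.gcd_comm]
    exact q.reduced
  have h5 : IsCoprime ((q.den : ℤ) ^ 2) (q.num ^ 4) := h4.pow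
  have h6 : (q.den : ℤ) ^ 2 ∣ (r.den : ℤ) ^ 2 := h5.dvd_of_dvd_mul_right h3
  have h7 : (q.den : ℤ) ∣ (r.den : ℤ) := (Int.pow_dvd_pow_iff two_ne_zero).1 h6
  exact_mod_cast h7

end Pool.Agent.Q18.HQ.TaskDen1
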