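import Pool.Agent.Q18.HQ.Stmts

namespace Pool.Agent.Q18.HQ.TaskDen2

open Pool.Agent.Q18.HQ

theorem main : Pool.Agent.Q18.HQ.TaskDen2 := by
  intro q s hs h
  have hk0 : (s.den : ℚ) ≠ 0 := by exact_mod_cast s.den_ne_zero
  have he0 : (q.den : ℚ) ≠ 0 := by exact_mod_cast q.den_ne_zero
  have hsm : s * s.den = s.num := Rat.mul_den_eq_num s
  have hqm : q * q.den = q.num := Rat.mul_den_eq_num q
  have hQ : (q.num : ℚ) ^ 2 * (s.num : ℚ) ^ 2 * (s.den : ℚ) ^ 2 = (q.den : ℚ) ^ 2 *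
      ((s.num : ℚ) ^ 4 + (s.den : ℚ) ^ 2 * (- 72579 * (s.num : ℚ) ^ 2 + 1125000000 * (s.den : ℚ) ^ 2)) := by
    rw [← hsm, ← hqm]
    linear_combination (q.den : ℚ) ^ 2 * (s.den : ℚ) ^ 4 * h
  have hZ : (q.num) ^ 2 * (s.num) ^ 2 * (s.den : ℤ) ^ 2 = (q.den : ℤ) ^ 2 *
      ((s.num) ^ 4 + (s.den : ℤ) ^ 2 * (- 72579 * (s.num) ^ 2 + 1125000000 * (s.den : ℤ) ^ 2)) := by
    exact_mod_cast hQ
  have hcop : IsCoprime (s.den : ℤ) s.num := by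
    rw [Int.isCoprime_iff_gcd_eq_one]
    have := s.reduced
    rw [Nat.coprime_comm] at this
    simpa [Int.gcd, Nat.Coprime] using this
  have hc2 : IsCoprime ((s.den : ℤ) ^ 2) ((s.num) ^ 4 + (s.den : ℤ) ^ 2 *
      (- 72579 * (s.num) ^ 2 + 1125000000 * (s.den : ℤ) ^ 2)) :=
    (hcop.pow (m := 2) (n := 4)).add_mul_left_right _
  have hd : (s.den : ℤ) ^ 2 ∣ (q.den : ℤ) ^ 2 := by
    apply hc2.dvd_of_dvd_mul_right
    rw [← hZ]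
    exact Dvd.intro_left _ rfl
  have hd2 : (s.den : ℤ) ∣ (q.den : ℤ) := (Int.pow_dvd_pow_iff (by norm_num)).1 hd
  exact_mod_cast hd2

end Pool.Agent.Q18.HQ.TaskDen2
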