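import Pool.Agent.Q18.HQ.Stmts

/-! Blueprint of helper18 for MP_59b56e_nt: TaskDescent. -/

set_option autoImplicit false

namespace Pool.Agent.Q18.HQ.TaskDescent

open Pool.Agent.Q18.HQ

theorem main (hS1 : Pool.Agent.Q18.HQ.TaskStep1) (hS2 : Pool.Agent.Q18.HQ.TaskStep2)
    (hD1 : Pool.Agent.Q18.HQ.TaskDen1) (hD2 : Pool.Agent.Q18.HQ.TaskDen2)
    (hE : Pool.Agent.Q18.HQ.TaskEq) (hB : Pool.Agent.Q18.HQ.TaskBack) :
    Pool.Agent.Q18.HQ.TaskDescent := by
  have key : ∀ (N : ℕ) (r y : ℚ), r.den = N →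
      y ^ 2 = r ^ 4 - 72579 * r ^ 2 + 1125000000 → r ^ 2 = 62500 := by
    intro N
    induction N using Nat.strong_induction_on with
    | _ N ih =>
      intro r y hN hy
      obtain ⟨q, hq0, hq⟩ := hS1 r y hy
      obtain ⟨s, hs0, hs⟩ := hS2 r q hq0 hq
      have h1 := hD1 r q hq0 hq
      have h2 := hD2 q s hs0 hs
      have h3 : q.den ≤ r.den := Nat.le_of_dvd r.den_pos h1
      have h4 : s.den ≤ q.den := Nat.le_of_dvd q.den_pos h2
      have hs2 : s ^ 2 = 62500 := by
        rcases lt_or_eq_of_le (h4.trans h3) with h5 | h5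
        · exact ih s.den (by rw [← hN]; exact h5) s (q * s) rfl (by rw [mul_pow]; exact hs)
        · exact hE r q s hq0 hs0 hq hs (by omega) (by omega)
      exact hB r q s hq hs hs2
  intro r y hy
  exact key r.den r y rfl hy

end Pool.Agent.Q18.HQ.TaskDescent
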