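import Pool.Agent.Q18.HQ.Stmts

set_option autoImplicit false

namespace Pool.Agent.Q18.HQ.TaskEq

open Pool.Agent.Q18.HQ

theorem main (hF : Pool.Agent.Q18.HQ.TaskFin) : Pool.Agent.Q18.HQ.TaskEq := by
  intro r q s hq hs h1 h2 hqr hsq
  have hM : q * (q.den : ℚ) = (q.num : ℚ) := Rat.mul_den_eq_num q
  have hn : r * (q.den : ℚ) = (r.num : ℚ) := by rw [hqr]; exact Rat.mul_den_eq_num r
  have hm : s * (q.den : ℚ) = (s.num : ℚ) := by rw [← hsq]; exact Rat.mul_den_eq_num s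
  have hkpos : 0 < q.den := q.den_pos
  have hc1 : Nat.Coprime q.num.natAbs q.den := q.reduced
  have hc2 : Nat.Coprime s.num.natAbs q.den := by
    have := s.reduced
    rwa [hsq] at this
  have i1 : 4 * (r.num : ℚ) ^ 2 * (q.num : ℚ) ^ 2 = (q.num : ℚ) ^ 4 +
      145158 * (q.num : ℚ) ^ 2 * (q.den : ℚ) ^ 2 + 767711241 * (q.den : ℚ) ^ 4 := by
    rw [← hM, ← hn]
    linear_combination (q.den : ℚ) ^ 4 * h1
  have i2 : (q.num : ℚ) ^ 2 * (s.num : ℚ) ^ 2 = (s.num : ℚ) ^ 4 -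
      72579 * (s.num : ℚ) ^ 2 * (q.den : ℚ) ^ 2 + 1125000000 * (q.den : ℚ) ^ 4 := by
    rw [← hM, ← hm]
    linear_combination (q.den : ℚ) ^ 4 * h2
  generalize hk' : q.den = k at *
  generalize hM' : q.num = M at *
  generalize hn' : r.num = n at *
  generalize hm' : s.num = m at *
  have j1 : 4 * n ^ 2 * M ^ 2 = M ^ 4 + 145158 * M ^ 2 * (k : ℤ) ^ 2 + 767711241 * (k : ℤ) ^ 4 := by
    exact_mod_cast i1
  have j2 : M ^ 2 * m ^ 2 = m ^ 4 - 72579 * m ^ 2 * (k : ℤ) ^ 2 + 1125000000 * (k : ℤ) ^ 4 := by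
    exact_mod_cast i2
  have hcM : IsCoprime M (k : ℤ) := by
    rw [Int.isCoprime_iff_gcd_eq_one]
    exact hc1
  have hcm : IsCoprime m (k : ℤ) := by
    rw [Int.isCoprime_iff_gcd_eq_one]
    exact hc2
  have d1 : M ^ 2 ∣ 767711241 := by
    have h : M ^ 2 ∣ 767711241 * (k : ℤ) ^ 4 :=
      ⟨4 * n ^ 2 - M ^ 2 - 145158 * (k : ℤ) ^ 2, by linear_combination -j1⟩
    exact (hcM.pow (m := 2) (n := 4)).dvd_of_dvd_mul_right h
  have d2 : m ^ 2 ∣ 1125000000 := by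
    have h : m ^ 2 ∣ 1125000000 * (k : ℤ) ^ 4 :=
      ⟨M ^ 2 - m ^ 2 + 72579 * (k : ℤ) ^ 2, by linear_combination -j2⟩
    exact (hcm.pow (m := 2) (n := 4)).dvd_of_dvd_mul_right h
  have d1' : M.natAbs ^ 2 ∣ 767711241 := by
    have := Int.natAbs_dvd_natAbs.2 d1
    rwa [Int.natAbs_pow] at this
  have d2' : m.natAbs ^ 2 ∣ 1125000000 := by
    have := Int.natAbs_dvd_natAbs.2 d2
    rwa [Int.natAbs_pow] at this
  have j3 : M.natAbs ^ 2 * m.natAbs ^ 2 + 72579 * m.natAbs ^ 2 * k ^ 2 =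
      m.natAbs ^ 4 + 1125000000 * k ^ 4 := by
    have e4 : ((m.natAbs : ℤ)) ^ 4 = m ^ 4 := by
      rw [show (4 : ℕ) = 2 * 2 from rfl, pow_mul, pow_mul, Int.natAbs_sq]
    have : (((M.natAbs ^ 2 * m.natAbs ^ 2 + 72579 * m.natAbs ^ 2 * k ^ 2 : ℕ)) : ℤ) =
        ((m.natAbs ^ 4 + 1125000000 * k ^ 4 : ℕ) : ℤ) := by
      push_cast [Int.natAbs_sq]
      rw [← Int.natCast_natAbs, ← Int.natCast_natAbs, e4, Int.natAbs_sq, Int.natAbs_sq]
      linear_combination j2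
    exact_mod_cast this
  obtain ⟨hm250, hk1⟩ := hF M.natAbs m.natAbs k hkpos d1' d2' hc2 j3
  rw [hk1] at hm
  have hs' : s = (m : ℚ) := by
    rw [← hm]
    simp
  have hm2 : m ^ 2 = 62500 := by
    rw [← Int.natAbs_sq m, hm250]
    norm_num
  rw [hs']
  exact_mod_cast hm2

end Pool.Agent.Q18.HQ.TaskEq
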