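import Pool.Agent.Q18.HQ.Stmts

set_option autoImplicit false

namespace Pool.Agent.Q18.HQ.TaskFin

open Pool.Agent.Q18.HQ

def LM : List ℕ := [1, 3, 11, 33, 89, 267, 979, 2937]

def Lm : List ℕ := [1, 2, 3, 4, 5, 6, 8, 10, 12, 15, 20, 24, 25, 30, 40, 50, 60, 75, 100, 120, 125,
  150, 200, 250, 300, 375, 500, 600, 625, 750, 1000, 1250, 1500, 1875, 2500, 3000, 3750, 5000, 7500,
  15000]

theorem memM : ∀ a < 167, ∀ b < 167, (167 * a + b) ^ 2 ∣ 767711241 → 167 * a + b ∈ LM := by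
  decide +kernel

theorem memm : ∀ a < 184, ∀ b < 184, (184 * a + b) ^ 2 ∣ 1125000000 → 184 * a + b ∈ Lm := by
  decide +kernel

theorem fin : ∀ M ∈ LM, ∀ m ∈ Lm, ∀ k < 122,
    M ^ 2 * m ^ 2 + 72579 * m ^ 2 * k ^ 2 = m ^ 4 + 1125000000 * k ^ 4 → 0 < k → Nat.Coprime m k →
      m = 250 ∧ k = 1 := by
  decide +kernel

theorem leM : ∀ M ∈ LM, M ≤ 2937 := by decide +kernel

theorem lem : ∀ m ∈ Lm, m ≤ 15000 := by decide +kernel

theorem main : Pool.Agent.Q18.HQ.TaskFin := by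
  intro M m k hk hM hm hc heq
  have hM1 : M ∈ LM := by
    have h1 : M ^ 2 ≤ 767711241 := Nat.le_of_dvd (by norm_num) hM
    have h2 : M < 167 * 167 := by nlinarith
    have h3 := memM (M / 167) (by omega) (M % 167) (Nat.mod_lt _ (by norm_num))
    rw [Nat.div_add_mod] at h3
    exact h3 hM
  have hm1 : m ∈ Lm := by
    have h1 : m ^ 2 ≤ 1125000000 := Nat.le_of_dvd (by norm_num) hm
    have h2 : m < 184 * 184 := by nlinarith
    have h3 := memm (m / 184) (by omega) (m % 184) (Nat.mod_lt _ (by norm_num))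
    rw [Nat.div_add_mod] at h3
    exact h3 hm
  have hM2 : M ^ 2 ≤ 2937 ^ 2 := Nat.pow_le_pow_left (leM M hM1) 2
  have hm2 : m ^ 2 ≤ 15000 ^ 2 := Nat.pow_le_pow_left (lem m hm1) 2
  have hk2 : k < 122 := by
    by_contra h
    have hk3 : 122 ^ 2 ≤ k ^ 2 := Nat.pow_le_pow_left (by omega) 2
    have h1 : m ^ 2 * (M ^ 2 + 72579 * k ^ 2) = m ^ 4 + 1125000000 * k ^ 4 := by
      rw [← heq]; ring
    have h2 : m ^ 2 * (M ^ 2 + 72579 * k ^ 2) ≤ 15000 ^ 2 * (M ^ 2 + 72579 * k ^ 2) :=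
      Nat.mul_le_mul_right _ hm2
    have h3 : 5 * (k ^ 2) ^ 2 ≤ M ^ 2 + 72579 * k ^ 2 := by
      have : (k ^ 2) ^ 2 = k ^ 4 := by ring
      rw [this]
      omega
    nlinarith
  exact fin M hM1 m hm1 k hk2 heq hk hc

end Pool.Agent.Q18.HQ.TaskFin
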