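import Pool.Agent.Q18.HQ.Stmts

/-! TaskFin of the blueprint HQ (helper18's MP_59b56e_nt), second proof by helper6. -/

set_option autoImplicit false

namespace Pool.Agent.Q18.HQ.TaskFin_helper6
open Pool.Agent.Q18.HQ

private theorem sq_dvd {p n M : ℕ} (hp : p.Prime) (hn : 0 < n) (h : M ^ 2 ∣ p * n ^ 2) : M ∣ n := by
  have hg : 0 < Nat.gcd M n := Nat.gcd_pos_of_pos_right _ hn
  obtain ⟨g, a, b, hg0, hab, hM, hn'⟩ : ∃ g a b : ℕ, 0 < g ∧ Nat.Coprime a b ∧ M = a * g ∧ n = b * g := by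
    obtain ⟨a, b, hab, hM, hn'⟩ := Nat.exists_coprime M n
    exact ⟨Nat.gcd M n, a, b, hg, hab, hM, hn'⟩
  subst hM hn'
  have h2 : a ^ 2 ∣ p * b ^ 2 := by
    have : a ^ 2 * g ^ 2 ∣ (p * b ^ 2) * g ^ 2 := by
      convert h using 1 <;> ring
    exact Nat.dvd_of_mul_dvd_mul_right (by positivity) this
  have h3 : a ^ 2 ∣ p := (Nat.Coprime.pow 2 2 hab).dvd_of_dvd_mul_right h2
  have h4 : IsUnit a := hp.prime.squarefree a (by rwa [← sq])
  rw [Nat.isUnit_iff] at h4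
  rw [h4, one_mul]
  exact Dvd.intro_left b rfl

private theorem check : ∀ M ∈ [1, 3, 11, 33, 89, 267, 979, 2937], ∀ a ∈ [1, 2, 3, 4, 6, 8, 12, 24],
    ∀ b ∈ [1, 5, 25, 125, 625], ∀ k < 122, 0 < k →
    M ^ 2 * (a * b) ^ 2 + 72579 * (a * b) ^ 2 * k ^ 2 = (a * b) ^ 4 + 1125000000 * k ^ 4 →
    Nat.Coprime (a * b) k → a * b = 250 ∧ k = 1 := by
  decide +kernel

theorem main : Pool.Agent.Q18.HQ.TaskFin := by
  intro M m k hk hM hm hco heq
  have hM' : M ∣ 2937 := sq_dvd (p := 89) (by norm_num) (by norm_num) (by norm_num; exact hM)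
  have hm' : m ∣ 15000 := sq_dvd (p := 5) (by norm_num) (by norm_num) (by norm_num; exact hm)
  have hMle : M ≤ 2937 := Nat.le_of_dvd (by norm_num) hM'
  have hmle : m ≤ 15000 := Nat.le_of_dvd (by norm_num) hm'
  have hM1 : M ∈ [1, 3, 11, 33, 89, 267, 979, 2937] := by
    obtain ⟨x, y, hx, hy, hxy⟩ := (Nat.dvd_mul (k := M) (m := 33) (n := 89)).1 (by simpa using hM')
    have hx1 : x ∈ Nat.divisors 33 := by simp [hx]
    have hx2 : Nat.divisors 33 = {1, 3, 11, 33} := by decide +kernel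
    have hy1 : y = 1 ∨ y = 89 := (Nat.dvd_prime (by norm_num)).1 hy
    rw [hx2] at hx1
    simp only [Finset.mem_insert, Finset.mem_singleton] at hx1
    subst hxy
    rcases hx1 with rfl | rfl | rfl | rfl <;> rcases hy1 with rfl | rfl <;> simp
  obtain ⟨a, b, ha, hb, hab⟩ := (Nat.dvd_mul (k := m) (m := 24) (n := 625)).1 (by simpa using hm')
  have ha1 : a ∈ [1, 2, 3, 4, 6, 8, 12, 24] := by
    have h1 : a ∈ Nat.divisors 24 := by simp [ha]
    have h2 : Nat.divisors 24 = {1, 2, 3, 4, 6, 8, 12, 24} := by decide +kernel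
    rw [h2] at h1
    simpa using h1
  have hb1 : b ∈ [1, 5, 25, 125, 625] := by
    obtain ⟨j, hj, hbj⟩ := (Nat.dvd_prime_pow (p := 5) (m := 4) (by norm_num)).1 (by simpa using hb)
    subst hbj
    interval_cases j <;> simp
  have hk2 : k < 122 := by
    by_contra hcon
    push Not at hcon
    have h1 : m ^ 2 ≤ 225000000 := by nlinarith
    have h2 : M ^ 2 ≤ 8625969 := by nlinarith
    have h3 : M ^ 2 * m ^ 2 + 72579 * m ^ 2 * k ^ 2 ≤ 8625969 * 225000000 + 72579 * 225000000 * k ^ 2 := by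
      have := Nat.mul_le_mul h2 h1
      have h5 : m ^ 2 * k ^ 2 ≤ 225000000 * k ^ 2 := Nat.mul_le_mul_right _ h1
      nlinarith
    have h4 : 14884 ≤ k ^ 2 := by nlinarith
    have h6 : k ^ 4 = k ^ 2 * k ^ 2 := by ring
    have h7 : 14884 * k ^ 2 ≤ k ^ 2 * k ^ 2 := Nat.mul_le_mul_right _ h4
    have h8 : 0 ≤ m ^ 4 := Nat.zero_le _
    rw [h6] at heq
    omega
  subst hab
  exact check M hM1 a ha1 b hb1 k hk2 hk heq hco

end Pool.Agent.Q18.HQ.TaskFin_helper6
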