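import Pool.Agent.Q18.HQ.Stmts

set_option autoImplicit false

/-! MP_59b56e_nt: from the descent to the discriminant. -/

namespace Pool.Agent.Q18.HQ.TaskH

open Pool.Agent.Q18.HQ

theorem main (h : TaskDescent) : Pool.Agent.Q18.HQ.TaskH := by
  intro t y hy
  by_cases ht : t = 0
  · exact Or.inl ht
  · right
    have h1 : (600 * y / t ^ 2) ^ 2 = (3600 / t) ^ 4 - 72579 * (3600 / t) ^ 2 + 1125000000 := by
      have e : (600 * y / t ^ 2) ^ 2 = 360000 * y ^ 2 / t ^ 4 := by
        field_simp
        ring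
      rw [e, hy]
      field_simp
      ring
    have h2 := h _ _ h1
    rw [div_pow, div_eq_iff (pow_ne_zero 2 ht)] at h2
    have h3 : t ^ 2 = 3600 ^ 2 / 62500 := by
      rw [eq_div_iff (by norm_num)]
      linarith
    rw [h3]
    norm_num

end Pool.Agent.Q18.HQ.TaskH
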