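import Pool.Agent.Q18.HQ.Stmts

set_option autoImplicit false

namespace Pool.Agent.Q18.HQ.TaskHankelPf

private lemma hdet (t : ℚ) :
    (!![5, 0, 26, 0, 194; 0, 26, 0, 194, 5 * t; 26, 0, 194, 5 * t, 1586;
      0, 194, 5 * t, 1586, 91 * t; 194, 5 * t, 1586, 91 * t, 13634] :
      Matrix (Fin 5) (Fin 5) ℚ).det = 3125 * t ^ 4 - 2612844 * t ^ 2 + 466560000 := by
  simp [Matrix.det_succ_row_zero, Fin.sum_univ_succ, Fin.succAbove]
  ring

theorem main' : Pool.Agent.Q18.HQ.TaskHankel := by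
  intro s t h1 h2 h3 h4 h5 h6 h7 h8
  refine ⟨(Matrix.vandermonde s).det, ?_⟩
  have e : (Matrix.vandermonde s).det ^ 2 =
      ((Matrix.vandermonde s).transpose * Matrix.vandermonde s).det := by
    rw [Matrix.det_mul, Matrix.det_transpose, sq]
  have h0 : ∑ i : Fin 5, s i ^ 0 = 5 := by simp
  have h1' : ∑ i : Fin 5, s i ^ 1 = 0 := by simpa using h1
  have hM : (Matrix.vandermonde s).transpose * Matrix.vandermonde s =
      !![5, 0, 26, 0, 194; 0, 26, 0, 194, 5 * t; 26, 0, 194, 5 * t, 1586;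
      0, 194, 5 * t, 1586, 91 * t; 194, 5 * t, 1586, 91 * t, 13634] := by
    ext i j
    rw [Matrix.vandermonde_transpose_mul_vandermonde]
    fin_cases i <;> fin_cases j <;>
    first
    | exact h0
    | exact h1'
    | exact h2
    | exact h3
    | exact h4
    | exact h5
    | exact h6
    | exact h7
    | exact h8
  rw [e, hM, hdet]

end Pool.Agent.Q18.HQ.TaskHankelPf

theorem Pool.Agent.Q18.HQ.TaskHankel.main : Pool.Agent.Q18.HQ.TaskHankel :=
  Pool.Agent.Q18.HQ.TaskHankelPf.main'
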