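import Pool.Agent.Q18.HQ.Stmts

set_option autoImplicit false

namespace Pool.Agent.Q18.HQ.TaskHankelB

theorem main : Pool.Agent.Q18.HQ.TaskHankel := by
  intro s t h1 h2 h3 h4 h5 h6 h7 h8
  refine ⟨(Matrix.vandermonde s).det, ?_⟩
  have e : (Matrix.vandermonde s).transpose * Matrix.vandermonde s =
      !![5, 0, 26, 0, 194; 0, 26, 0, 194, 5 * t; 26, 0, 194, 5 * t, 1586;
        0, 194, 5 * t, 1586, 91 * t; 194, 5 * t, 1586, 91 * t, 13634] := by
    ext i j
    rw [Matrix.vandermonde_transpose_mul_vandermonde]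
    fin_cases i <;> fin_cases j <;> simp [h1, h2, h3, h4, h5, h6, h7, h8]
  have d : (Matrix.vandermonde s).det ^ 2 =
      ((Matrix.vandermonde s).transpose * Matrix.vandermonde s).det := by
    rw [Matrix.det_mul, Matrix.det_transpose, sq]
  rw [d, e]
  simp [Matrix.det_succ_row_zero, Fin.sum_univ_succ, Fin.succAbove]
  ring

end Pool.Agent.Q18.HQ.TaskHankelB
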