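import Pool.Agent.Q18.HQ.Stmts

/-! TaskHankel of the blueprint HQ (helper18's MP_59b56e_nt), second proof by helper6. -/

set_option autoImplicit false

namespace Pool.Agent.Q18.HQ.TaskHankel_helper6
open Pool.Agent.Q18.HQ

private theorem det5 (t : ℚ) : Matrix.det !![(5 : ℚ), 0, 26, 0, 194; 0, 26, 0, 194, 5 * t; 26, 0, 194, 5 * t, 1586;
    0, 194, 5 * t, 1586, 91 * t; 194, 5 * t, 1586, 91 * t, 13634] = 3125 * t ^ 4 - 2612844 * t ^ 2 + 466560000 := by
  simp [Matrix.det_succ_row_zero, Fin.sum_univ_succ, Fin.succAbove]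
  ring

theorem main : Pool.Agent.Q18.HQ.TaskHankel := by
  intro s t h1 h2 h3 h4 h5 h6 h7 h8
  refine ⟨(Matrix.vandermonde s).det, ?_⟩
  have hmat : (Matrix.vandermonde s).transpose * Matrix.vandermonde s =
      !![(5 : ℚ), 0, 26, 0, 194; 0, 26, 0, 194, 5 * t; 26, 0, 194, 5 * t, 1586;
    0, 194, 5 * t, 1586, 91 * t; 194, 5 * t, 1586, 91 * t, 13634] := by
    ext i j
    rw [Matrix.vandermonde_transpose_mul_vandermonde]
    simp only [Fin.sum_univ_five] at h1 h2 h3 h4 h5 h6 h7 h8 ⊢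
    fin_cases i <;> fin_cases j <;> simp <;> first | linarith | (norm_num; linarith) | norm_num
  have : (Matrix.vandermonde s).det ^ 2 = ((Matrix.vandermonde s).transpose * Matrix.vandermonde s).det := by
    rw [Matrix.det_mul, Matrix.det_transpose, sq]
  rw [this, hmat, det5]

end Pool.Agent.Q18.HQ.TaskHankel_helper6
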