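import Pool.Agent.Q18.HQ.Stmts

set_option autoImplicit false

namespace Pool.Agent.Q18.HQ.TaskNewton

theorem main : Pool.Agent.Q18.HQ.TaskNewton := by
  intro s t h
  have H0 := h 0
  have H1 := h 1
  have H2 := h (-1)
  have H3 := h 2
  have H4 := h (-2)
  simp only [Fin.prod_univ_five] at H0 H1 H2 H3 H4
  simp only [Fin.sum_univ_five]
  generalize s 0 = a at *
  generalize s 1 = b at *
  generalize s 2 = c at *
  generalize s 3 = d at *
  generalize s 4 = e at *
  have he1 : a + b + c + d + e = 0 := by
    linear_combination (1 / 24) * (H3 + H4) - (1 / 6) * (H1 + H2) + (1 / 4) * H0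
  have he2 : a * b + a * c + a * d + a * e + b * c + b * d + b * e + c * d + c * e + d * e = -13 := by
    linear_combination -(1 / 12) * (H3 - H4) + (1 / 6) * (H1 - H2)
  have he3 : a * b * c + a * b * d + a * b * e + a * c * d + a * c * e + a * d * e + b * c * d +
      b * c * e + b * d * e + c * d * e = 0 := by
    linear_combination (2 / 3) * (H1 + H2) - (1 / 24) * (H3 + H4) - (5 / 4) * H0
  have he4 : a * b * c * d + a * b * c * e + a * b * d * e + a * c * d * e + b * c * d * e = 36 := by
    linear_combination -(2 / 3) * (H1 - H2) + (1 / 12) * (H3 - H4)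
  clear H0 H1 H2 H3 H4 h
  refine ⟨he1, ?_, ?_, ?_⟩
  · linear_combination (a + b + c + d + e) * he1 - 2 * he2
  · linear_combination ((a + b + c + d + e) ^ 2 -
      3 * (a * b + a * c + a * d + a * e + b * c + b * d + b * e + c * d + c * e + d * e)) * he1 + 3 * he3
  · linear_combination ((a + b + c + d + e) ^ 3 -
      4 * (a + b + c + d + e) *
        (a * b + a * c + a * d + a * e + b * c + b * d + b * e + c * d + c * e + d * e) +
      4 * (a * b * c + a * b * d + a * b * e + a * c * d + a * c * e + a * d * e + b * c * d +
        b * c * e + b * d * e + c * d * e)) * he1 +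
      2 * ((a * b + a * c + a * d + a * e + b * c + b * d + b * e + c * d + c * e + d * e) - 13) * he2 -
      4 * he4

end Pool.Agent.Q18.HQ.TaskNewton
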