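import Pool.Agent.Q18.HQ.Stmts

set_option autoImplicit false

namespace Pool.Agent.Q18.HQ.TaskNoRoot

theorem main : Pool.Agent.Q18.HQ.TaskNoRoot := by
  intro x h
  have hw : (x.den : ℚ) ≠ 0 := by exact_mod_cast x.den_nz
  obtain ⟨u, hu⟩ : ∃ u : ℤ, u = x.num := ⟨_, rfl⟩
  obtain ⟨w, hw'⟩ : ∃ w : ℤ, w = (x.den : ℤ) := ⟨_, rfl⟩
  have hcop : IsCoprime u w := by
    rw [hu, hw', Int.isCoprime_iff_nat_coprime]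
    simpa using x.reduced
  have hxx : x * (w : ℚ) = (u : ℚ) := by
    rw [hu, hw']
    push_cast
    exact Rat.mul_den_eq_num x
  have h1 : (25 : ℚ) * ((u : ℚ) ^ 5 - 13 * (u : ℚ) ^ 3 * (w : ℚ) ^ 2 + 36 * u * (w : ℚ) ^ 4) ^ 2 =
      5184 * (w : ℚ) ^ 10 := by
    rw [← hxx]
    have h2 : (25 : ℚ) * ((x * w) ^ 5 - 13 * (x * w) ^ 3 * (w : ℚ) ^ 2 + 36 * (x * w) * (w : ℚ) ^ 4) ^ 2
        = 25 * (w : ℚ) ^ 10 * (x ^ 5 - 13 * x ^ 3 + 36 * x) ^ 2 := by ring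
    rw [h2, h]
    ring
  have h3 : (25 : ℤ) * (u ^ 5 - 13 * u ^ 3 * w ^ 2 + 36 * u * w ^ 4) ^ 2 = 5184 * w ^ 10 := by
    exact_mod_cast h1
  have hp : Prime (5 : ℤ) := Int.prime_iff_natAbs_prime.2 (by norm_num)
  have h5w : (5 : ℤ) ∣ w := by
    have h4 : (5 : ℤ) ∣ 5184 * w ^ 10 := ⟨5 * (u ^ 5 - 13 * u ^ 3 * w ^ 2 + 36 * u * w ^ 4) ^ 2, by
      rw [← h3]; ring⟩
    rcases hp.dvd_or_dvd h4 with h5 | h5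
    · norm_num at h5
    · exact hp.dvd_of_dvd_pow h5
  obtain ⟨v, rfl⟩ := h5w
  have h4 : (5 : ℤ) ∣ (u ^ 5 - 13 * u ^ 3 * (5 * v) ^ 2 + 36 * u * (5 * v) ^ 4) ^ 2 := by
    refine ⟨5184 * 5 ^ 7 * v ^ 10, ?_⟩
    have h6 : (25 : ℤ) * (u ^ 5 - 13 * u ^ 3 * (5 * v) ^ 2 + 36 * u * (5 * v) ^ 4) ^ 2 =
      25 * (5 * (5184 * 5 ^ 7 * v ^ 10)) := by
      rw [h3]; ring
    exact mul_left_cancel₀ (by norm_num) h6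
  have h6 := hp.dvd_of_dvd_pow h4
  have h7 : (5 : ℤ) ∣ u ^ 5 := by
    have h8 : u ^ 5 = (u ^ 5 - 13 * u ^ 3 * (5 * v) ^ 2 + 36 * u * (5 * v) ^ 4) +
        5 * (13 * u ^ 3 * 5 * v ^ 2 - 36 * u * 5 ^ 3 * v ^ 4) := by ring
    rw [h8]
    exact dvd_add h6 (dvd_mul_right _ _)
  have h8 : (5 : ℤ) ∣ u := hp.dvd_of_dvd_pow h7
  have h9 : IsUnit (5 : ℤ) := hcop.isUnit_of_dvd' h8 (dvd_mul_right _ _)
  exact hp.not_unit h9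

end Pool.Agent.Q18.HQ.TaskNoRoot
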