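import Pool.Agent.Q18.HQ.Stmts

set_option autoImplicit false

namespace Pool.Agent.Q18.HQ.TaskO1a

open Pool.Agent.Q18.HQ

private theorem sq8 (x : ℤ) : ∃ u : ℤ, (2 * x + 1) ^ 2 = 8 * u + 1 := by
  obtain ⟨k, hk⟩ := Int.even_or_odd' x
  rcases hk with rfl | rfl
  · exact ⟨2 * k ^ 2 + k, by ring⟩
  · exact ⟨2 * k ^ 2 + 3 * k + 1, by ring⟩

/-- a square is `4 w` or `8 w + 1` -/
private theorem sq4 (N : ℤ) : (∃ k : ℤ, N = 2 * k) ∨ ∃ u : ℤ, N ^ 2 = 8 * u + 1 := by
  obtain ⟨k, hk⟩ := Int.even_or_odd' N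
  rcases hk with rfl | rfl
  · exact Or.inl ⟨k, rfl⟩
  · exact Or.inr (sq8 k)

private theorem gen (d1 c : ℤ) (hd : d1 % 4 = 1) (hc : c % 2 = 1) (M e N : ℤ)
    (hco : IsCoprime M e) :
    N ^ 2 ≠ (2 * d1) * M ^ 4 + (-72579) * M ^ 2 * e ^ 2 + (32 * c) * e ^ 4 := by
  intro h
  obtain ⟨d2, rfl⟩ : ∃ d2, d1 = 4 * d2 + 1 := ⟨d1 / 4, by omega⟩
  obtain ⟨c2, rfl⟩ : ∃ c2, c = 2 * c2 + 1 := ⟨c / 2, by omega⟩
  rcases sq4 M with ⟨m, rfl⟩ | ⟨u, hu⟩
  · rcases sq4 e with ⟨f, rfl⟩ | ⟨v, hv⟩
    · obtain ⟨a, b, hab⟩ := hco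
      have : 2 * (a * m + b * f) = 1 := by linarith
      omega
    · rcases sq4 N with ⟨n, rfl⟩ | ⟨w, hw⟩
      · have h1 : n ^ 2 = 8 * (4 * d2 + 1) * m ^ 4 + (-72579) * m ^ 2 * e ^ 2 +
            8 * (2 * c2 + 1) * e ^ 4 := by
          have : 4 * (n ^ 2) = 4 * (8 * (4 * d2 + 1) * m ^ 4 + (-72579) * m ^ 2 * e ^ 2 +
            8 * (2 * c2 + 1) * e ^ 4) := by linear_combination h
          linarith
        rcases sq4 m with ⟨k, rfl⟩ | ⟨u, hu⟩
        · rcases sq4 n with ⟨l, rfl⟩ | ⟨w, hw⟩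
          · have h2 : l ^ 2 = 32 * (4 * d2 + 1) * k ^ 4 + (-72579) * k ^ 2 * e ^ 2 +
                2 * (2 * c2 + 1) * e ^ 4 := by
              have : 4 * (l ^ 2) = 4 * (32 * (4 * d2 + 1) * k ^ 4 + (-72579) * k ^ 2 * e ^ 2 +
                2 * (2 * c2 + 1) * e ^ 4) := by linear_combination h1
              linarith
            have he4 : e ^ 4 = (8 * v + 1) ^ 2 := by rw [← hv]; ring
            rw [he4, hv] at h2
            rcases sq4 l with ⟨l', rfl⟩ | ⟨w', hw'⟩
            · rcases sq4 k with ⟨k', rfl⟩ | ⟨z, hz⟩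
              · ring_nf at h2
                omega
              · have hk4 : k ^ 4 = (8 * z + 1) ^ 2 := by rw [← hz]; ring
                rw [hk4, hz] at h2
                ring_nf at h2
                omega
            · rcases sq4 k with ⟨k', rfl⟩ | ⟨z, hz⟩
              · rw [hw'] at h2
                ring_nf at h2
                omega
              · have hk4 : k ^ 4 = (8 * z + 1) ^ 2 := by rw [← hz]; ring
                rw [hk4, hz, hw'] at h2
                ring_nf at h2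
                omega
          · rw [hw] at h1
            ring_nf at h1
            omega
        · have hm4 : m ^ 4 = (8 * u + 1) ^ 2 := by rw [← hu]; ring
          have he4 : e ^ 4 = (8 * v + 1) ^ 2 := by rw [← hv]; ring
          rw [he4, hv, hm4, hu] at h1
          rcases sq4 n with ⟨l, rfl⟩ | ⟨w, hw⟩
          · ring_nf at h1
            omega
          · rw [hw] at h1
            ring_nf at h1
            omega
      · rw [hw] at h
        ring_nf at h
        omega
  · have hM4 : M ^ 4 = (8 * u + 1) ^ 2 := by rw [← hu]; ring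
    rw [hM4, hu] at h
    rcases sq4 e with ⟨f, rfl⟩ | ⟨v, hv⟩
    · rcases sq4 N with ⟨n, rfl⟩ | ⟨w, hw⟩
      · ring_nf at h
        omega
      · rw [hw] at h
        ring_nf at h
        omega
    · have he4 : e ^ 4 = (8 * v + 1) ^ 2 := by rw [← hv]; ring
      rw [he4, hv] at h
      rcases sq4 N with ⟨n, rfl⟩ | ⟨w, hw⟩
      · ring_nf at h
        omega
      · rw [hw] at h
        ring_nf at h
        omega

theorem main : Pool.Agent.Q18.HQ.TaskO1a := by
  constructor
  · intro M e N hco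
    have := gen 1 17578125 (by norm_num) (by norm_num) M e N hco
    norm_num at this ⊢
    exact this
  · intro M e N hco
    have := gen 5 3515625 (by norm_num) (by norm_num) M e N hco
    norm_num at this ⊢
    exact this

end Pool.Agent.Q18.HQ.TaskO1a
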