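import Pool.Agent.Q18.HQ.Stmts

set_option autoImplicit false

namespace Pool.Agent.Q18.HQ.TaskO1aB

def sq : List (ZMod 64) := [0, 1, 4, 9, 16, 17, 25, 33, 36, 41, 49, 57]

theorem hsq : ∀ N : ZMod 64, N ^ 2 ∈ sq := by decide +kernel

theorem k1 : ∀ M e : ZMod 64, 2 * M ^ 4 + (-72579) * M ^ 2 * e ^ 2 + 562500000 * e ^ 4 ∈ sq →
    32 * M = 0 ∧ 32 * e = 0 := by decide +kernel

theorem k2 : ∀ M e : ZMod 64, 10 * M ^ 4 + (-72579) * M ^ 2 * e ^ 2 + 112500000 * e ^ 4 ∈ sq →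
    32 * M = 0 ∧ 32 * e = 0 := by decide +kernel

theorem even_of (M : ℤ) (h : 32 * (M : ZMod 64) = 0) : (2 : ℤ) ∣ M := by
  have h1 : ((32 * M : ℤ) : ZMod 64) = 0 := by push_cast; exact h
  rw [ZMod.intCast_zmod_eq_zero_iff_dvd] at h1
  omega

theorem ncop (M e : ℤ) (h : IsCoprime M e) (h1 : 32 * (M : ZMod 64) = 0)
    (h2 : 32 * (e : ZMod 64) = 0) : False := by
  have a := even_of M h1
  have b := even_of e h2
  have c := h.isUnit_of_dvd' a b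
  rw [Int.isUnit_iff] at c
  omega

theorem main : Pool.Agent.Q18.HQ.TaskO1a := by
  constructor
  · intro M e N hc h
    have h' : ((N ^ 2 : ℤ) : ZMod 64) = ((2 * M ^ 4 + (-72579) * M ^ 2 * e ^ 2 + 562500000 * e ^ 4 : ℤ) : ZMod 64) :=
      congrArg _ h
    push_cast at h'
    have h2 := hsq (N : ZMod 64)
    rw [h'] at h2
    obtain ⟨a, b⟩ := k1 _ _ h2
    exact ncop M e hc a b
  · intro M e N hc h
    have h' : ((N ^ 2 : ℤ) : ZMod 64) = ((10 * M ^ 4 + (-72579) * M ^ 2 * e ^ 2 + 112500000 * e ^ 4 : ℤ) : ZMod 64) :=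
      congrArg _ h
    push_cast at h'
    have h2 := hsq (N : ZMod 64)
    rw [h'] at h2
    obtain ⟨a, b⟩ := k2 _ _ h2
    exact ncop M e hc a b

end Pool.Agent.Q18.HQ.TaskO1aB
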