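import Pool.Agent.Q18.HQ.Stmts

set_option autoImplicit false

namespace Pool.Agent.Q18.HQ.TaskO1a118

def S : List (ZMod 64) := [0, 1, 4, 9, 16, 17, 25, 33, 36, 41, 49, 57]
def So : List (ZMod 64) := [1, 9, 17, 25, 33, 41, 49, 57]

theorem sq_mem : ∀ x : ZMod 64, x ^ 2 ∈ S := by decide +kernel
theorem sq_mem_odd : ∀ x : ZMod 64, x ^ 2 ∈ So ∨ (x * 32 = 0) := by decide +kernel

theorem odd_sq (M : ℤ) (h : ¬ (2 : ℤ) ∣ M) : ((M : ZMod 64)) ^ 2 ∈ So := by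
  rcases sq_mem_odd (M : ZMod 64) with h1 | h1
  · exact h1
  · exfalso
    apply h
    have h2 : ((M * 32 : ℤ) : ZMod 64) = 0 := by push_cast; exact h1
    have h3 := (ZMod.intCast_zmod_eq_zero_iff_dvd (M * 32) 64).1 h2
    push_cast at h3
    omega

theorem k1 : ∀ A ∈ So, ∀ B ∈ S, ∀ C ∈ S, C ≠ 2 * A ^ 2 + (-72579) * A * B + 562500000 * B ^ 2 := by decide +kernel
theorem k2 : ∀ A ∈ S, ∀ B ∈ So, ∀ C ∈ S, C ≠ 2 * A ^ 2 + (-72579) * A * B + 562500000 * B ^ 2 := by decide +kernel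
theorem k3 : ∀ A ∈ So, ∀ B ∈ S, ∀ C ∈ S, C ≠ 10 * A ^ 2 + (-72579) * A * B + 112500000 * B ^ 2 := by decide +kernel
theorem k4 : ∀ A ∈ S, ∀ B ∈ So, ∀ C ∈ S, C ≠ 10 * A ^ 2 + (-72579) * A * B + 112500000 * B ^ 2 := by decide +kernel

theorem two (M e : ℤ) (h : IsCoprime M e) : ¬ (2 : ℤ) ∣ M ∨ ¬ (2 : ℤ) ∣ e := by
  by_contra hcon
  push Not at hcon
  have := h.isUnit_of_dvd' hcon.1 hcon.2
  rw [Int.isUnit_iff] at this
  omega

theorem main : Pool.Agent.Q18.HQ.TaskO1a := by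
  constructor
  · intro M e N h hN
    have h1 : ((N : ZMod 64)) ^ 2 = 2 * ((M : ZMod 64) ^ 2) ^ 2 + (-72579) * ((M : ZMod 64) ^ 2) * ((e : ZMod 64) ^ 2) + 562500000 * ((e : ZMod 64) ^ 2) ^ 2 := by
      have := congrArg (fun x : ℤ => (x : ZMod 64)) hN
      push_cast at this
      rw [this]; ring
    rcases two M e h with h2 | h2
    · exact k1 _ (odd_sq M h2) _ (sq_mem _) _ (sq_mem _) h1
    · exact k2 _ (sq_mem _) _ (odd_sq e h2) _ (sq_mem _) h1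
  · intro M e N h hN
    have h1 : ((N : ZMod 64)) ^ 2 = 10 * ((M : ZMod 64) ^ 2) ^ 2 + (-72579) * ((M : ZMod 64) ^ 2) * ((e : ZMod 64) ^ 2) + 112500000 * ((e : ZMod 64) ^ 2) ^ 2 := by
      have := congrArg (fun x : ℤ => (x : ZMod 64)) hN
      push_cast at this
      rw [this]; ring
    rcases two M e h with h2 | h2
    · exact k3 _ (odd_sq M h2) _ (sq_mem _) _ (sq_mem _) h1
    · exact k4 _ (sq_mem _) _ (odd_sq e h2) _ (sq_mem _) h1

end Pool.Agent.Q18.HQ.TaskO1a118
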