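import Pool.Agent.Q18.HQ.Stmts

/-! TaskO1a of the blueprint HQ (helper18's MP_59b56e_nt), second proof by helper6. -/

set_option autoImplicit false

namespace Pool.Agent.Q18.HQ.TaskO1a_helper6
open Pool.Agent.Q18.HQ

private def S : List (ZMod 64) := [0, 1, 4, 9, 16, 17, 25, 33, 36, 41, 49, 57]

private theorem hsq : ∀ x : ZMod 64, x ^ 2 ∈ S := by decide +kernel

private theorem key1 : ∀ a ∈ S, ∀ c ∈ S, ∀ n ∈ S, n = 2 * a ^ 2 + (-72579) * a * c + 562500000 * c ^ 2 →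
    32 * a = 0 ∧ 32 * c = 0 := by decide +kernel

private theorem key2 : ∀ a ∈ S, ∀ c ∈ S, ∀ n ∈ S, n = 10 * a ^ 2 + (-72579) * a * c + 112500000 * c ^ 2 →
    32 * a = 0 ∧ 32 * c = 0 := by decide +kernel

private theorem even_of (M : ℤ) (h : 32 * ((M : ZMod 64)) ^ 2 = 0) : (2 : ℤ) ∣ M := by
  have h1 : ((32 * M ^ 2 : ℤ) : ZMod 64) = 0 := by push_cast; exact h
  have h2 : (64 : ℤ) ∣ 32 * M ^ 2 := (ZMod.intCast_zmod_eq_zero_iff_dvd _ 64).1 h1
  have h3 : (2 : ℤ) ∣ M ^ 2 := by omega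
  exact Int.prime_two.dvd_of_dvd_pow h3

private theorem fin (M e : ℤ) (h : IsCoprime M e) (h1 : 32 * ((M : ZMod 64)) ^ 2 = 0)
    (h2 : 32 * ((e : ZMod 64)) ^ 2 = 0) : False := by
  have := h.isUnit_of_dvd' (even_of M h1) (even_of e h2)
  rw [Int.isUnit_iff] at this
  omega

theorem main : Pool.Agent.Q18.HQ.TaskO1a := by
  constructor
  · intro M e N hco hN
    have h : ((N ^ 2 : ℤ) : ZMod 64) = ((2 * M ^ 4 + (-72579) * M ^ 2 * e ^ 2 + 562500000 * e ^ 4 : ℤ) : ZMod 64) := by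
      rw [hN]
    push_cast at h
    obtain ⟨h1, h2⟩ := key1 _ (hsq (M : ZMod 64)) _ (hsq (e : ZMod 64)) _ (hsq (N : ZMod 64)) (by
      rw [h]; ring)
    exact fin M e hco h1 h2
  · intro M e N hco hN
    have h : ((N ^ 2 : ℤ) : ZMod 64) = ((10 * M ^ 4 + (-72579) * M ^ 2 * e ^ 2 + 112500000 * e ^ 4 : ℤ) : ZMod 64) := by
      rw [hN]
    push_cast at h
    obtain ⟨h1, h2⟩ := key2 _ (hsq (M : ZMod 64)) _ (hsq (e : ZMod 64)) _ (hsq (N : ZMod 64)) (by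
      rw [h]; ring)
    exact fin M e hco h1 h2

end Pool.Agent.Q18.HQ.TaskO1a_helper6
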