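import Pool.Agent.Q18.HQ.Stmts

set_option autoImplicit false

namespace Pool.Agent.Q18.HQ.TaskO1b

open Pool.Agent.Q18.HQ

lemma dec1 : ∀ m ε : ZMod 3, m ^ 4 - m ^ 2 * ε ^ 2 + 2 * ε ^ 4 = 0 → m = 0 ∧ ε = 0 := by decide

lemma dec2 : ∀ m ε : ZMod 3, 2 * m ^ 4 - m ^ 2 * ε ^ 2 + ε ^ 4 = 0 → m = 0 ∧ ε = 0 := by decide

lemma cast_mod (a r : ℤ) (h : a % 3 = r) : ((a : ℤ) : ZMod 3) = ((r : ℤ) : ZMod 3) := by
  subst h
  exact ((ZMod.intCast_mod a 3).symm)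

lemma core (c f : ℤ) (hcf : (c % 3 = 1 ∧ f % 3 = 2) ∨ (c % 3 = 2 ∧ f % 3 = 1)) :
    ∀ M e N : ℤ, IsCoprime M e →
      N ^ 2 ≠ 3 * (c * M ^ 4 - 24193 * M ^ 2 * e ^ 2 + f * e ^ 4) := by
  intro M e N hc hN
  have h3 : (3 : ℤ) ∣ N := Int.prime_three.dvd_of_dvd_pow ⟨_, hN⟩
  obtain ⟨n, rfl⟩ := h3
  have hK : c * M ^ 4 - 24193 * M ^ 2 * e ^ 2 + f * e ^ 4 = 3 * n ^ 2 := by
    have h4 : (3 : ℤ) * (c * M ^ 4 - 24193 * M ^ 2 * e ^ 2 + f * e ^ 4) = 3 * (3 * n ^ 2) := by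
      rw [← hN]; ring
    exact mul_left_cancel₀ (by norm_num) h4
  have h30 : ((3 : ℤ) : ZMod 3) = 0 := by rfl
  have hz : ((c * M ^ 4 - 24193 * M ^ 2 * e ^ 2 + f * e ^ 4 : ℤ) : ZMod 3) = 0 := by
    rw [hK, Int.cast_mul, h30, zero_mul]
  rw [Int.cast_add, Int.cast_sub, Int.cast_mul, Int.cast_mul, Int.cast_mul, Int.cast_mul,
    Int.cast_pow, Int.cast_pow, Int.cast_pow, Int.cast_pow,
    cast_mod 24193 1 (by norm_num), Int.cast_one, one_mul] at hz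
  have hme : (M : ZMod 3) = 0 ∧ (e : ZMod 3) = 0 := by
    rcases hcf with ⟨h1, h2⟩ | ⟨h1, h2⟩
    · rw [cast_mod c 1 h1, cast_mod f 2 h2, Int.cast_one, one_mul] at hz
      exact dec1 _ _ hz
    · rw [cast_mod c 2 h1, cast_mod f 1 h2, Int.cast_one, one_mul] at hz
      exact dec2 _ _ hz
  have h1 : (3 : ℤ) ∣ M := (ZMod.intCast_zmod_eq_zero_iff_dvd M 3).1 hme.1
  have h2 : (3 : ℤ) ∣ e := (ZMod.intCast_zmod_eq_zero_iff_dvd e 3).1 hme.2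
  exact Int.prime_three.not_unit (hc.isUnit_of_dvd' h1 h2)

theorem main : Pool.Agent.Q18.HQ.TaskO1b := by
  refine ⟨?_, ?_, ?_, ?_⟩ <;> intro M e N hc hN
  · exact core 1 125000000 (Or.inl ⟨by norm_num, by norm_num⟩) M e N hc (by rw [hN]; ring)
  · exact core 5 25000000 (Or.inr ⟨by norm_num, by norm_num⟩) M e N hc (by rw [hN]; ring)
  · exact core 2 62500000 (Or.inr ⟨by norm_num, by norm_num⟩) M e N hc (by rw [hN]; ring)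
  · exact core 10 12500000 (Or.inl ⟨by norm_num, by norm_num⟩) M e N hc (by rw [hN]; ring)

end Pool.Agent.Q18.HQ.TaskO1b
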