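import Pool.Agent.Q18.HQ.Stmts

set_option autoImplicit false

namespace Pool.Agent.Q18.HQ.TaskO1c

theorem main : Pool.Agent.Q18.HQ.TaskO1c := by
  intro d b2 hd hb M e N hco h
  have hN : 0 ≤ N ^ 2 := sq_nonneg N
  have h1 : d * M ^ 4 ≤ 0 := mul_nonpos_of_nonpos_of_nonneg hd.le (by positivity)
  have h2 : b2 * e ^ 4 ≤ 0 := mul_nonpos_of_nonpos_of_nonneg hb.le (by positivity)
  have h3 : 0 ≤ M ^ 2 * e ^ 2 := by positivity
  rcases eq_or_ne M 0 with hM | hM
  · have he : e ≠ 0 := by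
      rintro rfl
      rw [hM] at hco
      exact not_isCoprime_zero_zero hco
    have h4 : 0 < e ^ 4 := by positivity
    have h5 : b2 * e ^ 4 < 0 := mul_neg_of_neg_of_pos hb h4
    nlinarith
  · have h4 : 0 < M ^ 4 := by positivity
    have h5 : d * M ^ 4 < 0 := mul_neg_of_neg_of_pos hd h4
    nlinarith

end Pool.Agent.Q18.HQ.TaskO1c
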