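import Pool.Agent.Q18.HQ.Stmts

/-! # `TaskO2a` -/

set_option autoImplicit false

namespace Pool.Agent.Q18.HQ.TaskO2a

open Pool.Agent.Q18.HQ

theorem sq16 : ∀ N : ZMod 16, N ^ 2 = 0 ∨ N ^ 2 = 1 ∨ N ^ 2 = 4 ∨ N ^ 2 = 9 := by decide

theorem odd_of (M e : ℤ) (h : IsCoprime M e) :
    (M : ZMod 16).val % 2 = 1 ∨ (e : ZMod 16).val % 2 = 1 := by
  by_contra hcon
  push Not at hcon
  have h1 : ((M : ZMod 16).val : ℤ) = M % 16 := ZMod.val_intCast M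
  have h2 : ((e : ZMod 16).val : ℤ) = e % 16 := ZMod.val_intCast e
  have h3 : (2 : ℤ) ∣ M := by omega
  have h4 : (2 : ℤ) ∣ e := by omega
  obtain ⟨a, b, hab⟩ := h
  have h5 : (2 : ℤ) ∣ 1 := by
    rw [← hab]
    exact dvd_add (Dvd.dvd.mul_left h3 a) (Dvd.dvd.mul_left h4 b)
  omega

theorem obs_of (a d b2 : ℤ) (a' d' b' : ZMod 16) (ha : (a : ZMod 16) = a') (hd : (d : ZMod 16) = d')
    (hb : (b2 : ZMod 16) = b')
    (h : ∀ M e : ZMod 16, (M.val % 2 = 1 ∨ e.val % 2 = 1) →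
      d' * M ^ 4 + a' * M ^ 2 * e ^ 2 + b' * e ^ 4 = 3 ∨
      d' * M ^ 4 + a' * M ^ 2 * e ^ 2 + b' * e ^ 4 = 7 ∨
      d' * M ^ 4 + a' * M ^ 2 * e ^ 2 + b' * e ^ 4 = 11 ∨
      d' * M ^ 4 + a' * M ^ 2 * e ^ 2 + b' * e ^ 4 = 12 ∨
      d' * M ^ 4 + a' * M ^ 2 * e ^ 2 + b' * e ^ 4 = 15) : Obs a d b2 := by
  intro M e N hMe hN
  have h1 := congrArg (Int.cast : ℤ → ZMod 16) hN
  push_cast at h1
  rw [ha, hd, hb] at h1
  rcases sq16 (N : ZMod 16) with h2 | h2 | h2 | h2 <;>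
    rcases h M e (odd_of M e hMe) with h3 | h3 | h3 | h3 | h3 <;>
    rw [h2, h3] at h1 <;> exact absurd h1 (by decide)

set_option maxRecDepth 100000 in
theorem main : Pool.Agent.Q18.HQ.TaskO2a := by
  refine ⟨obs_of _ _ _ 6 11 11 (by decide) (by decide) (by decide) (by decide),
    obs_of _ _ _ 6 3 3 (by decide) (by decide) (by decide) (by decide),
    obs_of _ _ _ 6 15 7 (by decide) (by decide) (by decide) (by decide),
    obs_of _ _ _ 6 7 15 (by decide) (by decide) (by decide) (by decide)⟩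

end Pool.Agent.Q18.HQ.TaskO2a
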