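import Pool.Agent.Q18.HQ.Stmts

set_option autoImplicit false

namespace Pool.Agent.Q18.HQ.TaskO2b

open Pool.Agent.Q18.HQ

theorem dec1 : ∀ M e N : Fin 9, N * N = 3 * (M * M * (M * M)) + 6 * (M * M) * (e * e) + 6 * (e * e * (e * e)) →
    3 * M = 0 ∧ 3 * e = 0 := by decide

theorem dec2 : ∀ M e N : Fin 9, N * N = 6 * (M * M * (M * M)) + 6 * (M * M) * (e * e) + 3 * (e * e * (e * e)) →
    3 * M = 0 ∧ 3 * e = 0 := by decide

theorem dvd3 (M : ℤ) (h : (3 : ZMod 9) * (M : ZMod 9) = 0) : (3 : ℤ) ∣ M := by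
  have h1 : ((3 * M : ℤ) : ZMod 9) = 0 := by push_cast; exact h
  rw [ZMod.intCast_zmod_eq_zero_iff_dvd] at h1
  obtain ⟨k, hk⟩ := h1
  push_cast at hk
  exact ⟨k, by omega⟩

theorem key (d b : ℤ) (c1 c3 : ZMod 9) (hd : (d : ZMod 9) = c1) (hb : (b : ZMod 9) = c3)
    (h : ∀ M e N : ZMod 9, N * N = c1 * (M * M * (M * M)) + 6 * (M * M) * (e * e) + c3 * (e * e * (e * e)) →
      3 * M = 0 ∧ 3 * e = 0) : Obs 145158 d b := by
  intro M e N hcop heq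
  have h1 : ((N ^ 2 : ℤ) : ZMod 9) = ((d * M ^ 4 + 145158 * M ^ 2 * e ^ 2 + b * e ^ 4 : ℤ) : ZMod 9) := by
    rw [heq]
  have ha : ((145158 : ℤ) : ZMod 9) = ((6 : ℤ) : ZMod 9) :=
    (ZMod.intCast_eq_intCast_iff_dvd_sub _ _ _).2 (by norm_num)
  have h2 : (N : ZMod 9) * N = c1 * ((M : ZMod 9) * M * (M * M)) + 6 * ((M : ZMod 9) * M) * ((e : ZMod 9) * e)
      + c3 * ((e : ZMod 9) * e * (e * e)) := by
    rw [Int.cast_add, Int.cast_add, Int.cast_mul, Int.cast_mul, Int.cast_mul, Int.cast_mul, ha, hd, hb] at h1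
    push_cast at h1
    linear_combination h1
  obtain ⟨h3, h4⟩ := h _ _ _ h2
  obtain ⟨x, y, hxy⟩ := hcop
  have h5 := dvd3 M h3
  have h6 := dvd3 e h4
  have h7 : (3 : ℤ) ∣ 1 := by
    rw [← hxy]
    exact dvd_add (Dvd.dvd.mul_left h5 x) (Dvd.dvd.mul_left h6 y)
  omega

theorem c (a b : ℤ) (h : (9 : ℤ) ∣ b - a) : (a : ZMod 9) = (b : ZMod 9) :=
  (ZMod.intCast_eq_intCast_iff_dvd_sub _ _ _).2 (by exact_mod_cast h)

theorem main : Pool.Agent.Q18.HQ.TaskO2b := by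
  have e3 : ((3 : ℤ) : ZMod 9) = 3 := by norm_num
  have e6 : ((6 : ℤ) : ZMod 9) = 6 := by norm_num
  refine ⟨key _ _ 3 6 e3 ?_ dec1, key _ _ 6 3 ?_ ?_ dec2, key _ _ 6 3 ?_ ?_ dec2, key _ _ 3 6 ?_ ?_ dec1⟩
  · rw [c _ 6 (by norm_num), e6]
  · rw [c _ 6 (by norm_num), e6]
  · rw [c _ 3 (by norm_num), e3]
  · rw [c _ 6 (by norm_num), e6]
  · rw [c _ 3 (by norm_num), e3]
  · rw [c _ 3 (by norm_num), e3]
  · rw [c _ 6 (by norm_num), e6]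

end Pool.Agent.Q18.HQ.TaskO2b
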