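import Pool.Agent.Q18.HQ.Stmts

/-! Blueprint lemma `TaskO2c` of `MP_59b56e_nt`. -/

set_option autoImplicit false

namespace Pool.Agent.Q18.HQ.TaskO2c

open Pool.Agent.Q18.HQ

lemma key : ∀ n m : ZMod 11, n ^ 2 = 2 * m ^ 2 → n = 0 ∧ m = 0 := by decide

lemma aux (d' b' : ℤ) (hd : ¬ (11 : ℤ) ∣ d') (hb : ¬ (11 : ℤ) ∣ b') :
    Obs 145158 (11 * d') (11 * b') := by
  intro M e N hc h
  have hp : Prime (11 : ℤ) := Int.prime_iff_natAbs_prime.2 (by norm_num)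
  have h0 : ((N : ℤ) : ZMod 11) ^ 2 = 2 * ((M * e : ℤ) : ZMod 11) ^ 2 := by
    have := congrArg (fun x : ℤ => (x : ZMod 11)) h
    push_cast at this ⊢
    rw [this]
    have e1 : (145158 : ZMod 11) = 2 := by decide
    have e2 : (11 : ZMod 11) = 0 := by decide
    rw [e1, e2]; ring
  obtain ⟨hN, hMe⟩ := key _ _ h0
  have hN' : (11 : ℤ) ∣ N := (ZMod.intCast_zmod_eq_zero_iff_dvd N 11).1 hN
  have hMe' : (11 : ℤ) ∣ M * e := (ZMod.intCast_zmod_eq_zero_iff_dvd (M * e) 11).1 hMe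
  have hu : (11 : ℤ) ∣ M → (11 : ℤ) ∣ e → False :=
    fun h1 h2 => hp.not_unit (hc.isUnit_of_dvd' h1 h2)
  obtain ⟨n, rfl⟩ := hN'
  rcases hp.dvd_or_dvd hMe' with hM | he
  · obtain ⟨m, rfl⟩ := hM
    have h1 : b' * e ^ 4 = 11 * (n ^ 2 - 11 ^ 3 * d' * m ^ 4 - 145158 * m ^ 2 * e ^ 2) := by
      apply mul_left_cancel₀ (show (11 : ℤ) ≠ 0 by norm_num)
      linear_combination -h
    rcases hp.dvd_or_dvd ⟨_, h1⟩ with h2 | h2
    · exact hb h2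
    · exact hu ⟨m, rfl⟩ (hp.dvd_of_dvd_pow h2)
  · obtain ⟨m, rfl⟩ := he
    have h1 : d' * M ^ 4 = 11 * (n ^ 2 - 11 ^ 3 * b' * m ^ 4 - 145158 * M ^ 2 * m ^ 2) := by
      apply mul_left_cancel₀ (show (11 : ℤ) ≠ 0 by norm_num)
      linear_combination -h
    rcases hp.dvd_or_dvd ⟨_, h1⟩ with h2 | h2
    · exact hd h2
    · exact hu (hp.dvd_of_dvd_pow h2) ⟨m, rfl⟩

theorem main : Pool.Agent.Q18.HQ.TaskO2c := by
  refine ⟨?_, ?_⟩
  · have := aux (-1) (-6344721) (by norm_num) (by norm_num)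
    norm_num at this
    exact this
  · have := aux (-89) (-71289) (by norm_num) (by norm_num)
    norm_num at this
    exact this

end Pool.Agent.Q18.HQ.TaskO2c
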