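import Pool.Agent.Q18.HQ.Stmts

set_option autoImplicit false

namespace Pool.Agent.Q18.HQ.TaskO2d

open Pool.Agent.Q18.HQ

private theorem obs9 (a d b2 : ℤ)
    (h : ∀ M e N : ZMod 9, N ^ 2 = (d : ZMod 9) * M ^ 4 + (a : ZMod 9) * M ^ 2 * e ^ 2 +
      (b2 : ZMod 9) * e ^ 4 → 3 * M = 0 ∧ 3 * e = 0) : Obs a d b2 := by
  intro M e N hc hN
  have h1 := h (M : ZMod 9) (e : ZMod 9) (N : ZMod 9)
    (by exact_mod_cast congrArg (Int.cast : ℤ → ZMod 9) hN)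
  have h2 : (3 : ℤ) ∣ M := by
    have h4 : ((3 * M : ℤ) : ZMod 9) = 0 := by push_cast; exact h1.1
    have h5 : ((9 : ℕ) : ℤ) ∣ 3 * M := (ZMod.intCast_zmod_eq_zero_iff_dvd _ 9).1 h4
    push_cast at h5
    omega
  have h3 : (3 : ℤ) ∣ e := by
    have h4 : ((3 * e : ℤ) : ZMod 9) = 0 := by push_cast; exact h1.2
    have h5 : ((9 : ℕ) : ℤ) ∣ 3 * e := (ZMod.intCast_zmod_eq_zero_iff_dvd _ 9).1 h4
    push_cast at h5
    omega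
  have h6 := hc.isUnit_of_dvd' h2 h3
  rw [Int.isUnit_iff] at h6
  omega

theorem main : Pool.Agent.Q18.HQ.TaskO2d := by
  refine ⟨obs9 _ _ _ ?_, obs9 _ _ _ ?_, obs9 _ _ _ ?_, obs9 _ _ _ ?_⟩ <;> decide +kernel

end Pool.Agent.Q18.HQ.TaskO2d
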