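import Pool.Agent.Q18.HQ.Stmts

/-! `TaskPow`: the power sums by the recursion. -/

set_option autoImplicit false

namespace Pool.Agent.Q18.HQ.TaskPow

theorem rec (s : Fin 5 → ℚ) (t : ℚ) (h : ∀ i, s i ^ 5 - 13 * s i ^ 3 + 36 * s i = t) (k : ℕ) :
    ∑ i, s i ^ (k + 5) = 13 * ∑ i, s i ^ (k + 3) - 36 * ∑ i, s i ^ (k + 1) + t * ∑ i, s i ^ k := by
  rw [Finset.mul_sum, Finset.mul_sum, Finset.mul_sum, ← Finset.sum_sub_distrib,
    ← Finset.sum_add_distrib]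
  refine Finset.sum_congr rfl fun i _ => ?_
  linear_combination (s i) ^ k * h i

theorem main : Pool.Agent.Q18.HQ.TaskPow := by
  intro s t h h1 h2 h3 h4
  have r0 := rec s t h 0
  have r1 := rec s t h 1
  have r2 := rec s t h 2
  have r3 := rec s t h 3
  norm_num at r0 r1 r2 r3
  rw [h1, h3] at r0
  rw [h4, h2, h1] at r1
  rw [h3, h2] at r2
  rw [h4, h3] at r3
  have e5 : ∑ i, s i ^ 5 = 5 * t := by rw [r0]; ring
  have e6 : ∑ i, s i ^ 6 = 1586 := by rw [r1]; ring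
  refine ⟨e5, e6, ?_, ?_⟩
  · rw [r2, e5]; ring
  · rw [r3, e6]; ring

end Pool.Agent.Q18.HQ.TaskPow
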