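import Pool.Agent.Q18.HQ.Stmts

/-! MP_59b56e_nt: task Roots. -/

set_option autoImplicit false

namespace Pool.Agent.Q18.HQ.TaskRoots

open Polynomial

theorem main : Pool.Agent.Q18.HQ.TaskRoots := by
  intro s t hs h x
  let f : ℚ[X] := X ^ 5 - C 13 * X ^ 3 + C 36 * X - C t
  let g : ℚ[X] := ∏ i : Fin 5, (X - C (s i))
  have hfm : f.Monic := by
    show (X ^ 5 - C 13 * X ^ 3 + C 36 * X - C t : ℚ[X]).Monic
    monicity!
  have hfd : f.natDegree = 5 := by
    show (X ^ 5 - C 13 * X ^ 3 + C 36 * X - C t : ℚ[X]).natDegree = 5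
    compute_degree!
  have hgm : g.Monic := monic_prod_of_monic _ _ fun i _ => monic_X_sub_C (s i)
  have hgd : g.natDegree = 5 := by
    show (∏ i : Fin 5, (X - C (s i))).natDegree = 5
    rw [natDegree_prod_of_monic _ _ fun i _ => monic_X_sub_C (s i)]
    simp
  have hf0 : f.degree = 5 := by
    rw [degree_eq_natDegree hfm.ne_zero, hfd]; rfl
  have hg0 : g.degree = 5 := by
    rw [degree_eq_natDegree hgm.ne_zero, hgd]; rfl
  have hlt : (f - g).degree < ((Finset.univ : Finset (Fin 5)).card : WithBot ℕ) := by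
    have h1 := degree_sub_lt_left (hf0.trans hg0.symm) hfm.ne_zero
      (hfm.leadingCoeff.trans hgm.leadingCoeff.symm)
    rw [hf0] at h1
    simpa using h1
  have hfg : f = g := by
    refine eq_of_degree_sub_lt_of_eval_index_eq (v := s) Finset.univ hs.injOn hlt ?_
    intro i _
    have h1 : eval (s i) g = 0 := by
      show eval (s i) (∏ j : Fin 5, (X - C (s j))) = 0
      rw [eval_prod]
      exact Finset.prod_eq_zero (Finset.mem_univ i) (by simp)
    rw [h1]
    show eval (s i) (X ^ 5 - C 13 * X ^ 3 + C 36 * X - C t) = 0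
    simp only [eval_sub, eval_add, eval_mul, eval_pow, eval_X, eval_C]
    linarith [h i]
  have h2 : eval x f = eval x g := by rw [hfg]
  have h3 : eval x f = x ^ 5 - 13 * x ^ 3 + 36 * x - t := by
    show eval x (X ^ 5 - C 13 * X ^ 3 + C 36 * X - C t) = _
    simp only [eval_sub, eval_add, eval_mul, eval_pow, eval_X, eval_C]
  have h4 : eval x g = ∏ i, (x - s i) := by
    show eval x (∏ j : Fin 5, (X - C (s j))) = _
    rw [eval_prod]
    simp
  rw [← h3, ← h4, h2]

end Pool.Agent.Q18.HQ.TaskRoots
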