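import Mathlib
import Pool.Agent.Q18.HQ.Stmts

set_option autoImplicit false

open Pool.Agent.Q18.HQ

namespace Pool.Agent.Q18.HQ.TaskSel1

theorem main (hDen : TaskDen) (hCls : TaskCls) (hO1a : TaskO1a) (hO1b : TaskO1b) (hO1c : TaskO1c)
    (hD1 : TaskD1) : Pool.Agent.Q18.HQ.TaskSel1 := by
  intro x y hx hE
  obtain ⟨u, e, w, he, hue, hxu, hw⟩ := hDen _ _ x y hE
  have he' : (e : ℚ) ≠ 0 := by exact_mod_cast he.ne'
  have hu : u ≠ 0 := by
    rintro rfl
    apply hx
    rw [hxu]
    simp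
  obtain ⟨d, b2, M, N, hd, hdb, huM, hN⟩ := hCls _ _ u e w (by norm_num) hu hue hw
  have hM : IsCoprime M e := by
    apply IsCoprime.of_isCoprime_of_dvd_left hue
    rw [huM]
    exact Dvd.dvd.mul_left (dvd_pow_self M two_ne_zero) d
  obtain ⟨-, hcase⟩ := hD1 d b2 hd hdb
  rcases hcase with rfl | rfl | rfl | rfl | rfl | rfl | rfl | rfl | ⟨hd0, hb0⟩
  · left
    refine ⟨M / e, ?_⟩
    rw [hxu, huM]
    push_cast
    field_simp
  · exfalso
    have hb : b2 = 562500000 := by linarith
    rw [hb] at hN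
    exact hO1a.1 M e N hM hN
  · exfalso
    have hb : b2 = 375000000 := by linarith
    rw [hb] at hN
    exact hO1b.1 M e N hM hN
  · right
    refine ⟨M / e, ?_⟩
    rw [hxu, huM]
    push_cast
    field_simp
  · exfalso
    have hb : b2 = 187500000 := by linarith
    rw [hb] at hN
    exact hO1b.2.2.1 M e N hM hN
  · exfalso
    have hb : b2 = 112500000 := by linarith
    rw [hb] at hN
    exact hO1a.2 M e N hM hN
  · exfalso
    have hb : b2 = 75000000 := by linarith
    rw [hb] at hN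
    exact hO1b.2.1 M e N hM hN
  · exfalso
    have hb : b2 = 37500000 := by linarith
    rw [hb] at hN
    exact hO1b.2.2.2 M e N hM hN
  · exfalso
    exact hO1c d b2 hd0 hb0 M e N hM hN

end Pool.Agent.Q18.HQ.TaskSel1
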