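import Pool.Agent.Q18.HQ.Stmts

set_option autoImplicit false

namespace Pool.Agent.Q18.HQ.TaskSel2

theorem main (hDen : Pool.Agent.Q18.HQ.TaskDen) (hCls : Pool.Agent.Q18.HQ.TaskCls)
    (ha : Pool.Agent.Q18.HQ.TaskO2a) (hb : Pool.Agent.Q18.HQ.TaskO2b)
    (hc : Pool.Agent.Q18.HQ.TaskO2c) (hd : Pool.Agent.Q18.HQ.TaskO2d)
    (hD : Pool.Agent.Q18.HQ.TaskD2) : Pool.Agent.Q18.HQ.TaskSel2 := by
  intro x y hx hE
  obtain ⟨u, e, w, he, hcop, hxu, hw⟩ := hDen 145158 767711241 x y hE
  have hu : u ≠ 0 := by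
    rintro rfl
    apply hx
    rw [hxu]
    simp
  obtain ⟨d, b2, M, N, hsq, hdb, huM, hN⟩ := hCls 145158 767711241 u e w (by norm_num) hu hcop hw
  have hMe : IsCoprime M e := hcop.of_isCoprime_of_dvd_left ⟨d * M, by rw [huM]; ring⟩
  have he' : (e : ℚ) ≠ 0 := by exact_mod_cast he.ne'
  obtain ⟨ha1, ha2, ha3, ha4⟩ := ha
  obtain ⟨hb1, hb2, hb3, hb4⟩ := hb
  obtain ⟨hc1, hc2⟩ := hc
  obtain ⟨hd1, hd2, hd3, hd4⟩ := hd
  rcases hD d b2 hsq hdb with rfl | rfl | rfl | rfl | rfl | rfl | rfl | rfl | rfl | rfl | rfl |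
    rfl | rfl | rfl | rfl | rfl
  · left
    refine ⟨M / e, ?_⟩
    rw [hxu, huM]
    push_cast
    field_simp
  · have h2 : b2 = 255903747 := by omega
    subst h2
    exact (hb1 M e N hMe hN).elim
  · have h2 : b2 = 69791931 := by omega
    subst h2
    exact (ha1 M e N hMe hN).elim
  · have h2 : b2 = 23263977 := by omega
    subst h2
    exact (hb3 M e N hMe hN).elim
  · right
    refine ⟨M / e, ?_⟩
    rw [hxu, huM]
    push_cast
    field_simp
  · have h2 : b2 = 2875323 := by omega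
    subst h2
    exact (hb2 M e N hMe hN).elim
  · have h2 : b2 = 784179 := by omega
    subst h2
    exact (ha2 M e N hMe hN).elim
  · have h2 : b2 = 261393 := by omega
    subst h2
    exact (hb4 M e N hMe hN).elim
  · have h2 : b2 = -767711241 := by omega
    subst h2
    exact (ha3 M e N hMe hN).elim
  · have h2 : b2 = -255903747 := by omega
    subst h2
    exact (hd1 M e N hMe hN).elim
  · have h2 : b2 = -69791931 := by omega
    subst h2
    exact (hc1 M e N hMe hN).elim
  · have h2 : b2 = -23263977 := by omega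
    subst h2
    exact (hd3 M e N hMe hN).elim
  · have h2 : b2 = -8625969 := by omega
    subst h2
    exact (ha4 M e N hMe hN).elim
  · have h2 : b2 = -2875323 := by omega
    subst h2
    exact (hd2 M e N hMe hN).elim
  · have h2 : b2 = -784179 := by omega
    subst h2
    exact (hc2 M e N hMe hN).elim
  · have h2 : b2 = -261393 := by omega
    subst h2
    exact (hd4 M e N hMe hN).elim

end Pool.Agent.Q18.HQ.TaskSel2
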