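import Pool.Agent.Q18.HQ.Stmts

set_option autoImplicit false

namespace Pool.Agent.Q18.HQ.TaskStep1

open Pool.Agent.Q18.HQ

theorem main (h : TaskSel2) : Pool.Agent.Q18.HQ.TaskStep1 := by
  intro r y hy
  obtain ⟨x, hx⟩ : ∃ x : ℚ, x = 2 * r ^ 2 - 72579 - 2 * y := ⟨_, rfl⟩
  obtain ⟨x', hx'⟩ : ∃ x' : ℚ, x' = 2 * r ^ 2 - 72579 + 2 * y := ⟨_, rfl⟩
  have hprod : x * x' = 767711241 := by
    rw [hx, hx']
    linear_combination (-4) * hy
  have hsum : x + x' + 145158 = 4 * r ^ 2 := by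
    rw [hx, hx']
    ring
  have hx0 : x ≠ 0 := by
    rintro h0
    rw [h0, zero_mul] at hprod
    norm_num at hprod
  have hE : E 145158 767711241 x (2 * r * x) := by
    unfold E
    push_cast
    linear_combination (-x ^ 2) * hsum + x * hprod
  rcases h x (2 * r * x) hx0 hE with ⟨s, hs⟩ | ⟨s, hs⟩
  · refine ⟨s, ?_, ?_⟩
    · rintro rfl
      exact hx0 (by rw [hs]; norm_num)
    · have h4 : s ^ 4 = x ^ 2 := by rw [hs]; ring
      rw [h4, ← hs]
      linear_combination (-x) * hsum + hprod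
  · have hs0 : s ≠ 0 := by
      rintro rfl
      exact hx0 (by rw [hs]; norm_num)
    have hx'2 : x' = (2937 / s) ^ 2 := by
      have h5 : 89 * s ^ 2 * x' = 767711241 := by rw [← hs]; exact hprod
      field_simp
      linear_combination h5 / 89
    refine ⟨2937 / s, div_ne_zero (by norm_num) hs0, ?_⟩
    have h4 : (2937 / s) ^ 4 = x' ^ 2 := by rw [hx'2]; ring
    rw [h4, ← hx'2]
    linear_combination (-x') * hsum + hprod

end Pool.Agent.Q18.HQ.TaskStep1
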