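import Pool.Agent.Q18.HQ.Stmts

set_option autoImplicit false

namespace Pool.Agent.Q18.HQ.TaskStep2

theorem main (h : TaskSel1) : Pool.Agent.Q18.HQ.TaskStep2 := by
  intro r q hq hr
  obtain ⟨x, hx⟩ : ∃ x : ℚ, x = (q ^ 2 + 72579 + 2 * r * q) / 2 := ⟨_, rfl⟩
  obtain ⟨x', hx'⟩ : ∃ x' : ℚ, x' = (q ^ 2 + 72579 - 2 * r * q) / 2 := ⟨_, rfl⟩
  have h1 : x * x' = 1125000000 := by
    rw [hx, hx']
    linear_combination (-1 / 4 : ℚ) * hr
  have h2 : x + x' - 72579 = q ^ 2 := by
    rw [hx, hx']
    ring
  have hx0 : x ≠ 0 := by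
    intro h0
    rw [h0, zero_mul] at h1
    norm_num at h1
  have hx0' : x' ≠ 0 := by
    intro h0
    rw [h0, mul_zero] at h1
    norm_num at h1
  have hE : E (-72579) 1125000000 x (q * x) := by
    unfold E
    push_cast
    linear_combination (-x ^ 2) * h2 + x * h1
  rcases h x (q * x) hx0 hE with ⟨s, hs⟩ | ⟨s, hs⟩
  · refine ⟨s, ?_, ?_⟩
    · rintro rfl
      exact hx0 (by rw [hs]; norm_num)
    · have : q ^ 2 * x = x ^ 2 - 72579 * x + 1125000000 := by
        linear_combination (-x) * h2 + h1
      rw [hs] at this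
      linear_combination this
  · have hs0 : s ≠ 0 := by
      rintro rfl
      exact hx0 (by rw [hs]; norm_num)
    refine ⟨15000 / s, by positivity, ?_⟩
    have h3 : x' = (15000 / s) ^ 2 := by
      have : x' = 1125000000 / x := by
        field_simp
        linear_combination h1
      rw [this, hs]
      field_simp
      norm_num
    have : q ^ 2 * x' = x' ^ 2 - 72579 * x' + 1125000000 := by
      linear_combination (-x') * h2 + h1
    rw [h3] at this
    linear_combination this

end Pool.Agent.Q18.HQ.TaskStep2
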